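import Pool.Agent.Lib.UPrep.Inf

/-!
# Cut: the place where a cardinal cuts the inaccessibles

PROOF. Let `o` be the element with `#(Iio o) = c` and `#(Iio k) < c` for `k < o` (`ex_card`), `o'` its successor (`ex_succ`, `inO_noMax`). If `Ina j` and
`#(Iio j) ≤ c` then `j ≤ o` (otherwise `o < j`, `c = #(Iio o) < #(Iio j)` by `Ina.2`). Let `β` be the least element which is strictly above all `j` with
`Ina j`, `#(Iio j) ≤ c` (it exists: `o'` is such an element); `β ≤ o'`. (1) If `Ina j`, `β ≤ j`, then `c < #(Iio j)` (otherwise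
`j < β`), so `o < j` (`lt_of_card`), so `o' < j` (`ina_lim`), and `β ≤ o' < j`. (2) minimality of `β`: for `γ < β` there is `j` with `Ina j`,
`#(Iio j) ≤ c` and not `j < γ`; `j < β`. (3) `#(Iio β) ≤ #(Iio o') ≤ c + 1 = c`.
-/

set_option autoImplicit false
universe u

namespace Pool.Agent.UPrep

open Cardinal Pool.Agent.PolF Pool.Agent.UlM

variable {O : Type u} [LinearOrder O] [WellFoundedLT O]

theorem exists_cut (hO : InO O) {c : Cardinal.{u}} (h0 : ℵ₀ ≤ c) (hc : c < #O) :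
    ∃ β : O, (∀ j, Ina j → β ≤ j → β < j ∧ c < #(Set.Iio j)) ∧
      (∀ γ < β, ∃ j, γ ≤ j ∧ j < β ∧ Ina j ∧ #(Set.Iio j) ≤ c) ∧ #(Set.Iio β) ≤ c := by
  obtain ⟨o, ho, holt⟩ := ex_card hc
  obtain ⟨o', ho'⟩ := ex_succ (inO_noMax hO) o
  have hjo : ∀ j, Ina j → #(Set.Iio j) ≤ c → j ≤ o := by
    intro j hj hjc
    by_contra hcon
    have h1 := hj.2 o (not_le.1 hcon)
    rw [ho] at h1
    exact absurd hjc (not_le.2 h1)
  have hne : {b : O | ∀ j, Ina j → #(Set.Iio j) ≤ c → j < b}.Nonempty :=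
    ⟨o', fun j hj hjc => (ho' j).2 (hjo j hj hjc)⟩
  have hwf : WellFounded ((· < ·) : O → O → Prop) := wellFounded_lt
  obtain ⟨β, hβ, hmin⟩ : ∃ β, β ∈ {b : O | ∀ j, Ina j → #(Set.Iio j) ≤ c → j < b} ∧
      ∀ γ < β, γ ∉ {b : O | ∀ j, Ina j → #(Set.Iio j) ≤ c → j < b} :=
    ⟨hwf.min _ hne, hwf.min_mem _ hne, fun γ hγ hγ' => hwf.not_lt_min _ hγ' hγ⟩
  have hβo : β ≤ o' := by
    by_contra hcon
    exact hmin o' (not_le.1 hcon) (fun j hj hjc => (ho' j).2 (hjo j hj hjc))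
  refine ⟨β, fun j hj hβj => ?_, fun γ hγ => ?_, ?_⟩
  · have h1 : c < #(Set.Iio j) := by
      by_contra hcon
      exact absurd (hβ j hj (not_lt.1 hcon)) (not_lt.2 hβj)
    have h2 : o < j := lt_of_card (by rw [ho]; exact h1)
    obtain ⟨k, hk1, hk2⟩ := (ina_lim hj).2 o h2
    have h3 : o' < j := by
      have h4 : o' ≤ k := by
        by_contra hcon
        exact absurd ((ho' k).1 (not_le.1 hcon)) (not_le.2 hk1)
      exact h4.trans_lt hk2
    exact ⟨hβo.trans_lt h3, h1⟩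
  · have h1 := hmin γ hγ
    simp only [Set.mem_ofPred_eq, not_forall] at h1
    obtain ⟨j, hj, hjc, hjγ⟩ := h1
    exact ⟨j, not_lt.1 hjγ, hβ j hj hjc, hj, hjc⟩
  · have h1 : Set.Iio β ⊆ insert o (Set.Iio o) := by
      intro x hx
      have h2 := (ho' x).1 (lt_of_lt_of_le hx hβo)
      rcases h2.lt_or_eq with h3 | h3
      · exact Or.inr h3
      · exact Or.inl h3
    calc #(Set.Iio β) ≤ #↥(insert o (Set.Iio o) : Set O) := Cardinal.mk_le_mk_of_subset h1
      _ ≤ #(Set.Iio o) + 1 := Cardinal.mk_insert_le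
      _ = c := by rw [ho]; exact Cardinal.add_one_eq h0

end Pool.Agent.UPrep
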