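import Pool.Agent.Lib.UPrep.Inf

/-!
# Sgs: a singular limit of inaccessibles

PROOF. `γ ↦ #(Iio γ)` is `< #(Iio β)` for `γ < β` (`γ < j < β`, `Ina j`, `#(Iio γ) < #(Iio j) ≤ #(Iio β)`), so `Iio β` has the order type of an initial ordinal; `#(Iio β)` is
uncountable and a strong limit (each smaller cardinal is `< #(Iio j)` for some inaccessible `j < β`: it is `#(Iio k)` for some `k < β`). As `β` is not
inaccessible, `#(Iio β)` is not regular (`le_cof_ord` fails), so there is an unbounded set `C ⊆ Iio β` with `#C < #(Iio β)`; we may add countably many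
points, so `ℵ₀ ≤ #C`. Let `o < β` be the element with `#(Iio o) = #C` (`ex_card`, `lt_of_card`). `Ξ = ↥C`, `jx c` = an inaccessible `j < β` with
`max c o < j`; then `#Ξ = #(Iio o) < #(Iio (jx c))` by `Ina.2`.
-/

set_option autoImplicit false
universe u

namespace Pool.Agent.UPrep

open Cardinal Pool.Agent.PolF Pool.Agent.UlM

variable {O : Type u} [LinearOrder O] [WellFoundedLT O]

private theorem sgs_iio {β : O} (b : ↥(Set.Iio β)) : #(Set.Iio b) = #(Set.Iio b.1) := by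
  refine le_antisymm ?_ ?_
  · refine Cardinal.mk_le_of_injective
      (f := fun x : ↥(Set.Iio b) => (⟨x.1.1, x.2⟩ : ↥(Set.Iio b.1))) ?_
    intro x y hxy
    exact Subtype.ext (Subtype.ext (Subtype.mk.inj hxy))
  · refine Cardinal.mk_le_of_injective
      (f := fun x : ↥(Set.Iio b.1) => (⟨⟨x.1, x.2.trans b.2⟩, x.2⟩ : ↥(Set.Iio b))) ?_
    intro x y hxy
    exact Subtype.ext (congrArg (fun z : ↥(Set.Iio b) => z.1.1) hxy)

private theorem sgs_lt {β : O} (hl : ∀ γ < β, ∃ j, γ < j ∧ j < β ∧ Ina j) {γ : O} (h : γ < β) :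
    #(Set.Iio γ) < #(Set.Iio β) := by
  obtain ⟨j, h1, h2, h3⟩ := hl γ h
  exact (h3.2 γ h1).trans_le (Cardinal.mk_le_mk_of_subset (Set.Iio_subset_Iio h2.le))

private theorem sgs_strong {β : O} (hne : ∃ γ, γ < β)
    (hl : ∀ γ < β, ∃ j, γ < j ∧ j < β ∧ Ina j) :
    ℵ₀ < #(Set.Iio β) ∧ ∀ c < #(Set.Iio β), (2 : Cardinal.{u}) ^ c < #(Set.Iio β) := by
  constructor
  · obtain ⟨γ, hγ⟩ := hne
    obtain ⟨j, h1, h2, h3⟩ := hl γ hγ
    exact h3.1.aleph0_lt.trans_le (Cardinal.mk_le_mk_of_subset (Set.Iio_subset_Iio h2.le))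
  · intro c hc
    obtain ⟨k, hk, -⟩ := ex_card (O := ↥(Set.Iio β)) hc
    obtain ⟨j, h1, h2, h3⟩ := hl k.1 k.2
    have h4 : c < #(Set.Iio j) := by
      rw [← hk, sgs_iio]
      exact h3.2 _ h1
    exact (h3.1.isStrongLimit.isStrongPrelimit h4).trans_le
      (Cardinal.mk_le_mk_of_subset (Set.Iio_subset_Iio h2.le))

theorem sing_seq {β : O} (hne : ∃ γ, γ < β) (hl : ∀ γ < β, ∃ j, γ < j ∧ j < β ∧ Ina j)
    (hβ : ¬ Ina β) : ∃ (Ξ : Type u) (jx : Ξ → O), ℵ₀ ≤ #Ξ ∧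
      (∀ ξ, Ina (jx ξ) ∧ jx ξ < β ∧ #Ξ < #(Set.Iio (jx ξ))) ∧ ∀ γ < β, ∃ ξ, γ < jx ξ := by
  obtain ⟨hunc, hpow⟩ := sgs_strong hne hl
  have hiio : ∀ b : ↥(Set.Iio β), #(Set.Iio b) < #(Set.Iio β) := fun b => by
    rw [sgs_iio]; exact sgs_lt hl b.2
  have hty : (#(Set.Iio β)).ord = Ordinal.type (α := ↥(Set.Iio β)) (· < ·) := by
    refine le_antisymm (Cardinal.ord_le_type _) ?_
    refine le_of_forall_lt fun o ho => ?_
    obtain ⟨b, rfl⟩ := Ordinal.typein_surj (α := ↥(Set.Iio β)) (· < ·) ho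
    rw [Cardinal.lt_ord, Ordinal.card_typein]
    exact hiio b
  have hS : ∃ S : Set ↥(Set.Iio β), IsCofinal S ∧ #S < #(Set.Iio β) := by
    by_contra hcon
    push Not at hcon
    apply hβ
    refine ⟨Cardinal.isInaccessible_def.2 ⟨hunc, ⟨hunc.le, ?_⟩, ?_⟩, fun j hj => sgs_lt hl hj⟩
    · rw [hty, Ordinal.cof_type, Order.le_cof_iff]
      exact hcon
    · refine ⟨(Cardinal.aleph0_pos.trans hunc).ne', fun c hc => hpow c hc⟩
  obtain ⟨S, hScof, hSlt⟩ := hS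
  have hΞ : #(↥S ⊕ ULift.{u} ℕ) < #(Set.Iio β) := by
    rw [Cardinal.mk_sum, Cardinal.lift_id, Cardinal.lift_id]
    refine Cardinal.add_lt_of_lt hunc.le hSlt ?_
    simpa using hunc
  obtain ⟨o, ho, -⟩ := ex_card (O := ↥(Set.Iio β)) hΞ
  rw [sgs_iio] at ho
  have hex : ∀ c : ↥(Set.Iio β), ∃ j, c.1 < j ∧ o.1 < j ∧ j < β ∧ Ina j := by
    intro c
    obtain ⟨j, h1, h2, h3⟩ := hl (max c.1 o.1) (max_lt c.2 o.2)
    exact ⟨j, (le_max_left _ _).trans_lt h1, (le_max_right _ _).trans_lt h1, h2, h3⟩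
  choose jj hj1 hj2 hj3 hj4 using hex
  refine ⟨↥S ⊕ ULift.{u} ℕ, fun ξ => Sum.elim (fun s => jj s.1) (fun _ => jj o) ξ, ?_, ?_, ?_⟩
  · rw [Cardinal.mk_sum, Cardinal.lift_id, Cardinal.lift_id]
    refine le_trans ?_ (self_le_add_left _ _)
    simp
  · have key : ∀ c : ↥(Set.Iio β), Ina (jj c) ∧ jj c < β ∧
        #(↥S ⊕ ULift.{u} ℕ) < #(Set.Iio (jj c)) := fun c =>
      ⟨hj4 c, hj3 c, by rw [← ho]; exact (hj4 c).2 _ (hj2 c)⟩
    rintro (s | s)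
    · exact key s.1
    · exact key o
  · intro γ hγ
    obtain ⟨s, hs, h1⟩ := hScof ⟨γ, hγ⟩
    exact ⟨Sum.inl ⟨s, hs⟩, lt_of_le_of_lt h1 (hj1 s)⟩

theorem lim_strong {β : O} (hne : ∃ γ, γ < β) (hl : ∀ γ < β, ∃ j, γ < j ∧ j < β ∧ Ina j) :
    ℵ₀ < #(Set.Iio β) ∧ ∀ c < #(Set.Iio β), (2 : Cardinal.{u}) ^ c < #(Set.Iio β) :=
  sgs_strong hne hl

end Pool.Agent.UPrep
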