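import Pool.Agent.Lib.UPrep.Cana
import Pool.Agent.Lib.UPrep.Sgs

/-!
# GchC: GCH at a singular limit of inaccessibles

PROOF. `sing_seq`: `Ξ`, `jx`. Let `βx ξ` be the successor of `jx ξ` (`ex_succ`, `inO_noMax`), `βx ξ < β` (`hl`). Let `o` be the element with `#(Iio o) = #Ξ` (`ex_card`) and `β₀` its
successor; `o < jx ξ` (`lt_of_card`), so `β₀ ≤ jx ξ < βx ξ`. If `Ina j`, `β₀ ≤ j`, then `o < j`, so `#Ξ = #(Iio o) < #(Iio j)` (`Ina.2`) and `β₀ < j` (`ina_lim`). Let `φ : I ≃ Iio β`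
(`hI`), `Y ξ = {y : I // (φ y).1 < jx ξ}`: `#(Y ξ) ≤ #(Iio (jx ξ))`; if `Ina j`, `βx ξ ≤ j`, then `jx ξ < j`, `βx ξ < j` (`ina_lim`), `#(Iio (jx ξ)) < #(Iio j)`. Every
`y : I` is in some `Y ξ`; choose `ξ y`. For a name `s : I → Set (Pk)` and `r`: `cano_all` for `c ξ = fun y : Y ξ => s y.1` gives `r' ≤ r` with `Cano (βx ξ) (c ξ) r'` for all `ξ`.
`J = ∀ ξ, (Y ξ → Set ↥(Lo (βx ξ)))`, `γ (F, y) = pb (lL ..) (pLo (βx (ξ y))) (F (ξ y)) ⟨y, _⟩` (pullback, UlM/Prj.lean). Given `r'` let `F ξ y = {t | Mem s y (pGl (βx ξ) t (pHi (βx ξ) r'))}`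
(closed under stronger conditions: `gl_le`, `Mem_down`). For `h ≤ r'` and `y`, with `ξ = ξ y`: `Mem γ (F, y) h ↔ Mem (F ξ) y (pLo h)` (`mem_pb`, `prj_lo`). (→ of the
equivalence) if `Mem s y h` then `Mem s y (pGl (pLo h) (pHi r'))` by `Cano`, so `pLo h ∈ F ξ y`. (←) if `Mem (F ξ) y (pLo h)`: `Mem s y (pGl (pLo h) (pHi r'))` by
`Mem_loc` (below `m = pGl (pLo h) (pHi r')`: for `m₁ ≤ m`, `pLo m₁ ≤ pLo h`, there are `t ≤ pLo m₁`, `t ∈ F ξ y` up to a stronger condition; `pGl t (pHi m₁) ≤ m₁` and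
`≤ pGl t (pHi r')`), and `h ≤ pGl (pLo h) (pHi r')`, so `Mem s y h`. Counting: `#(Y ξ → Set (Lo (βx ξ))) = 2 ^ (#(Lo (βx ξ)) * #(Y ξ)) < #(Iio β)` (there is an inaccessible `j` with
`βx ξ < j < β`: `lo_card_lt`, `(InO_ina hj).pow`), so `#J ≤ #(Iio β) ^ #Ξ ≤ #(Iio β) ^ #(Iio β) = 2 ^ #(Iio β) = succ #I` (`Cardinal.prod_le_prod`, `mk_pi`).
-/

set_option autoImplicit false
universe u

namespace Pool.Agent.UPrep

open Cardinal Pool.Agent.PolF Pool.Agent.UlM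

variable {O : Type u} [LinearOrder O] [WellFoundedLT O] {dec : O → O → Code O} {B : O → O}

private theorem gchc_iio {a b : O} (h : a ≤ b) : #(Set.Iio a) ≤ #(Set.Iio b) :=
  mk_le_mk_of_subset (Set.Iio_subset_Iio h)

/-- the name of the lower parts -/
private def gchcF {β : O} {Y I : Type u} (s : I → Set ↥(Pk dec B)) (v : Y → I)
    (r : ↥(Pk dec B)) (y : Y) : Set ↥(Lo dec B β) :=
  {t | Mem (lP dec B) s (v y) (pGl β t (pHi β r))}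

private theorem gchc_mem {β : O} {Y I : Type u} (s : I → Set ↥(Pk dec B)) (v : Y → I)
    (r' : ↥(Pk dec B)) (hC : Cano β (fun y : Y => s (v y)) r') (h : ↥(Pk dec B))
    (hh : lP dec B h r') (y : Y) :
    Mem (lP dec B) s (v y) h ↔
      Mem (lL dec B β) (gchcF (β := β) s v r') y (pLo β h) := by
  have h1 : le2 (lL dec B β) (RT dec B β) (pLo β h, pHi β h) (pLo β r', pHi β r') := by
    refine (gl_le β _ _).1 ?_
    show lP dec B (pGl β (pLo β h) (pHi β h)) (pGl β (pLo β r') (pHi β r'))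
    rw [pGl_eq, pGl_eq]
    exact hh
  constructor
  · intro hm
    have h2 : Mem (lP dec B) s (v y) (pGl β (pLo β h) (pHi β r')) := hC y h hh hm
    intro q hq
    exact ⟨q, lL_refl β q, pLo β h, h2, hq⟩
  · intro hm
    have hle : lP dec B h (pGl β (pLo β h) (pHi β r')) := by
      have h3 := (gl_le β (pLo β h, pHi β h) (pLo β h, pHi β r')).2 ⟨lL_refl β _, h1.2⟩
      change lP dec B (pGl β (pLo β h) (pHi β h)) (pGl β (pLo β h) (pHi β r')) at h3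
      rw [pGl_eq] at h3
      exact h3
    refine Mem_down lP_trans hle ?_
    refine Mem_loc lP_trans lP_refl fun q hq => ?_
    have h4 : le2 (lL dec B β) (RT dec B β) (pLo β q, pHi β q) (pLo β h, pHi β r') := by
      refine (gl_le β _ _).1 ?_
      show lP dec B (pGl β (pLo β q) (pHi β q)) (pGl β (pLo β h) (pHi β r'))
      rw [pGl_eq]
      exact hq
    obtain ⟨t1, ht1, t, ht, htt⟩ := hm (pLo β q) h4.1
    refine ⟨pGl β t1 (pHi β q), ?_, ?_⟩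
    · have h5 := (gl_le β (t1, pHi β q) (pLo β q, pHi β q)).2 ⟨ht1, tl_refl β _ _⟩
      change lP dec B (pGl β t1 (pHi β q)) (pGl β (pLo β q) (pHi β q)) at h5
      rw [pGl_eq] at h5
      exact h5
    · have h6 := (gl_le β (t1, pHi β q) (t, pHi β r')).2
        ⟨htt, tl_down β _ _ _ _ ht1 h4.2⟩
      exact Mem_down lP_trans h6 ht

theorem gch_sing (hG : ∀ c : Cardinal.{u}, ℵ₀ ≤ c → (2 : Cardinal.{u}) ^ c = Order.succ c)
    (hO : InO O) (D : DecH dec B) {β : O} (hne : ∃ γ, γ < β)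
    (hl : ∀ γ < β, ∃ j, γ < j ∧ j < β ∧ Ina j) (hβ : ¬ Ina β) {I : Type u}
    (hI : #I = #(Set.Iio β)) (p : ↥(Pk dec B)) : FGchAt (lP dec B) I p := by
  classical
  obtain ⟨Ξ, jx, hΞ0, hjx, hcov⟩ := sing_seq hne hl hβ
  have hΞn : Nonempty Ξ := by
    rw [← mk_ne_zero_iff]
    exact (aleph0_pos.trans_le hΞ0).ne'
  obtain ⟨ξ0⟩ := hΞn
  choose βx hβx using fun ξ => ex_succ (inO_noMax hO) (jx ξ)
  have hjb : ∀ ξ, jx ξ < βx ξ := fun ξ => (hβx ξ _).2 le_rfl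
  have hble : ∀ ξ j, jx ξ < j → βx ξ ≤ j := fun ξ j h => not_lt.1 fun h' =>
    absurd ((hβx ξ j).1 h') (not_le.2 h)
  have hbβ : ∀ ξ, βx ξ < β := by
    intro ξ
    obtain ⟨j, h1, h2, -⟩ := hl (jx ξ) (hjx ξ).2.1
    exact (hble ξ j h1).trans_lt h2
  have hΞO : #Ξ < #O := (hjx ξ0).2.2.trans (hO.iio _)
  obtain ⟨o, ho, -⟩ := ex_card hΞO
  obtain ⟨β0, hβ0⟩ := ex_succ (inO_noMax hO) o
  have hob : o < β0 := (hβ0 o).2 le_rfl
  have h0le : ∀ j, o < j → β0 ≤ j := fun j h => not_lt.1 fun h' =>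
    absurd ((hβ0 j).1 h') (not_le.2 h)
  have hoj : ∀ ξ, o < jx ξ := fun ξ => lt_of_card (by rw [ho]; exact (hjx ξ).2.2)
  have h0 : ∀ j, Ina j → β0 ≤ j → β0 < j ∧ #Ξ < #(Set.Iio j) := by
    intro j hj hj0
    have h1 : o < j := hob.trans_le hj0
    obtain ⟨k, hk1, hk2⟩ := (ina_lim hj).2 o h1
    exact ⟨(h0le k hk1).trans_lt hk2, by rw [← ho]; exact hj.2 o h1⟩
  obtain ⟨φ⟩ := Cardinal.eq.1 hI
  let Y : Ξ → Type u := fun ξ => {y : I // (φ y).1 < jx ξ}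
  have hYc : ∀ ξ, #(Y ξ) ≤ #(Set.Iio (jx ξ)) := fun ξ =>
    mk_le_of_injective (f := fun y : Y ξ => (⟨(φ y.1).1, y.2⟩ : Set.Iio (jx ξ))) (by
      intro y y' h
      have h1 : (φ y.1).1 = (φ y'.1).1 := congrArg (fun x => x.1) h
      exact Subtype.ext (φ.injective (Subtype.ext h1)))
  have hν : ∀ ξ, ∀ j, Ina j → βx ξ ≤ j → βx ξ < j ∧ #(Y ξ) < #(Set.Iio j) := by
    intro ξ j hj hj0
    have h1 : jx ξ < j := (hjb ξ).trans_le hj0
    obtain ⟨k, hk1, hk2⟩ := (ina_lim hj).2 _ h1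
    exact ⟨(hble ξ k hk1).trans_lt hk2, (hYc ξ).trans_lt (hj.2 _ h1)⟩
  have hxi : ∀ y : I, ∃ ξ, (φ y).1 < jx ξ := fun y => hcov _ (φ y).2
  choose ξy hξy using hxi
  refine ⟨p, lP_refl p, (∀ ξ, Y ξ → Set ↥(Lo dec B (βx ξ))), fun Fy =>
    pb (lL dec B (βx (ξy Fy.2))) (pLo (βx (ξy Fy.2))) (Fy.1 (ξy Fy.2)) ⟨Fy.2, hξy Fy.2⟩, ?_, ?_⟩
  · -- counting
    have hℵ : ℵ₀ ≤ #(Set.Iio β) := (lim_strong hne hl).1.le
    have h1 : ∀ ξ, #(Y ξ → Set ↥(Lo dec B (βx ξ))) ≤ #(Set.Iio β) := by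
      intro ξ
      obtain ⟨j, hj1, hj2, hj3⟩ := hl (βx ξ) (hbβ ξ)
      have h2 : #↥(Lo dec B (βx ξ)) < #(Set.Iio j) := lo_card_lt D hj3 hj1
      have h3 : #(Y ξ) < #(Set.Iio j) := (hYc ξ).trans_lt (hj3.2 _ ((hjb ξ).trans hj1))
      have h4 : #↥(Lo dec B (βx ξ)) * #(Y ξ) < #(Set.Iio j) :=
        mul_lt_of_lt hj3.1.aleph0_lt.le h2 h3
      have h5 : #(Y ξ → Set ↥(Lo dec B (βx ξ))) = 2 ^ (#↥(Lo dec B (βx ξ)) * #(Y ξ)) := by
        rw [← power_def, mk_set, ← power_mul]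
      rw [h5]
      exact ((InO_ina hj3).pow _ h4).le.trans (gchc_iio hj2.le)
    have h2 : #Ξ ≤ #(Set.Iio β) := (hjx ξ0).2.2.le.trans (gchc_iio (hjx ξ0).2.1.le)
    rw [mk_pi, hI, ← hG _ hℵ]
    calc prod (fun ξ => #(Y ξ → Set ↥(Lo dec B (βx ξ))))
        ≤ prod (fun _ : Ξ => #(Set.Iio β)) := prod_le_prod _ _ h1
      _ = #(Set.Iio β) ^ #Ξ := by rw [prod_const']
      _ ≤ #(Set.Iio β) ^ #(Set.Iio β) := power_le_power_left (aleph0_pos.trans_le hℵ).ne' h2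
      _ = 2 ^ #(Set.Iio β) := power_self_eq hℵ
  · intro s r hr
    obtain ⟨r', hr', hC⟩ := cano_all hO D β0 hΞO h0 βx
      (fun ξ => ((h0le _ (hoj ξ)).trans (hjb ξ).le)) Y
      (fun ξ => (hYc ξ).trans_lt (hO.iio _)) hν (fun ξ => fun y : Y ξ => s y.1) r
    refine ⟨r', hr', fun ξ => gchcF (β := βx ξ) s (fun y : Y ξ => y.1) r', ?_⟩
    intro y h hh
    have h1 := gchc_mem (β := βx (ξy y)) s (fun z : Y (ξy y) => z.1) r' (hC (ξy y)) h hh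
      ⟨y, hξy y⟩
    have h2 := mem_pb (lG := lP dec B) (lQ := lL dec B (βx (ξy y))) (π := pLo (βx (ξy y)))
      lP_refl lP_trans (lL_refl _) (lL_trans _) (prj_lo (βx (ξy y)))
      (gchcF (β := βx (ξy y)) s (fun z : Y (ξy y) => z.1) r') ⟨y, hξy y⟩ h
    exact h1.trans h2.symm

end Pool.Agent.UPrep
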