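import Pool.Agent.Lib.UPrep.GchB
import Pool.Agent.Lib.UPrep.GchC
import Pool.Agent.Lib.UPrep.Cut

/-!
# Gch: the preparation forces GCH

PROOF. Let `I` be infinite. If `#O ≤ #I`: `gch_small` (`pk_card`). Let `#I < #O`, `β` from `exists_cut` for `c = #I`. `hred`: `red_lo` for `Y = I` gives the hypothesis of
`gch_prj` for `π = pLo β` (`prj_lo`), so it is enough to prove `FGchAt (lL β) I t` for all `t`, except in the singular case, where `FGchAt (lP) I p` is proved directly.
Case A: `#(Lo β) ≤ #I`: `gch_small` for `lL β`. Otherwise `#I < #(Lo β)`. If there is no `γ < β` then `Lo β` has only one element (`none`), so case A holds. Case B: there is `j < β` with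
`∀ k < β, k ≤ j` (i.e. `β` is the successor of `j`); by (2) for `γ = j`: there is `j₁` with `j ≤ j₁ < β`, so `j₁ = j`, `Ina j`, `#(Iio j) ≤ #I`; `gch_succ`. Case C: otherwise for every
`γ < β` there is `γ' < β` with `γ < γ'`, and by (2) an inaccessible `j` with `γ < j < β`. `Ina β` is impossible by (1). `#(Iio β) ≤ #I` by (3). `B k < β` for `k < β` (take an inaccessible
`j` with `k < j < β`, `D.bi`), so `#I < #(Lo β) ≤ succ #(Iio β)` (`lo_le`, `adm_card_lim`, `lim_strong`), so `#I ≤ #(Iio β)`; `gch_sing`.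
-/

set_option autoImplicit false
universe u

namespace Pool.Agent.UPrep

open Cardinal Pool.Agent.PolF Pool.Agent.UlM Pool.Agent.UlB

variable {O : Type u} [LinearOrder O] [WellFoundedLT O] {dec : O → O → Code O} {B : O → O}

theorem gch_prep (hG : ∀ c : Cardinal.{u}, ℵ₀ ≤ c → (2 : Cardinal.{u}) ^ c = Order.succ c)
    (hO : InO O) (D : DecH dec B) : FGch (lP dec B) := by
  rw [fgch_iff]
  intro I p hI
  have hI0 : ℵ₀ ≤ #I := aleph0_le_mk I
  rcases le_or_gt #O #I with hOI | hOI
  · exact gch_small lP_refl lP_trans hG hI ((pk_card hO).trans hOI) p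
  obtain ⟨β, h1, h2, h3⟩ := exists_cut hO hI0 hOI
  have hprj : FGchAt (lL dec B β) I (pLo β p) → FGchAt (lP dec B) I p := fun hq =>
    gch_prj lP_refl lP_trans (lL_refl β) (lL_trans β) (prj_lo β) (fun s g => by
      obtain ⟨g', hg1, -, c', hc'⟩ := red_lo hO D β hOI h1 s g
      exact ⟨g', hg1, c', hc'⟩) p hq
  rcases le_or_gt #↥(Lo dec B β) #I with hL | hL
  · exact hprj (gch_small (lL_refl β) (lL_trans β) hG hI hL _)
  by_cases hne : ∃ γ, γ < β
  swap
  · exfalso
    have hn : ∀ (a : ↥(Lo dec B β)) (k : O), a.1 k = none := fun a k => by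
      by_contra hk
      exact hne ⟨k, a.2.2 k hk⟩
    have hs : Subsingleton ↥(Lo dec B β) := ⟨fun a b => by
      apply Subtype.ext
      funext k
      rw [hn a k, hn b k]⟩
    have h4 : #↥(Lo dec B β) ≤ 1 := Cardinal.le_one_iff_subsingleton.2 hs
    have h5 : (1 : Cardinal.{u}) ≤ #I := Cardinal.one_le_aleph0.trans hI0
    exact absurd hL (not_lt.2 (h4.trans h5))
  by_cases hB : ∃ j < β, ∀ k < β, k ≤ j
  · obtain ⟨j, hj, hmax⟩ := hB
    obtain ⟨j1, hj1, hj2, hj3, hj4⟩ := h2 j hj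
    have hjj : j1 = j := le_antisymm (hmax j1 hj2) hj1
    subst hjj
    exact hprj (gch_succ hG D hj3 (fun k => ⟨fun hk => hmax k hk,
      fun hk => lt_of_le_of_lt hk hj2⟩) hI hj4 _)
  · push Not at hB
    have hl : ∀ γ < β, ∃ j, γ < j ∧ j < β ∧ Ina j := by
      intro γ hγ
      obtain ⟨γ', h5, h6⟩ := hB γ hγ
      obtain ⟨j, a1, a2, a3, -⟩ := h2 γ' h5
      exact ⟨j, lt_of_lt_of_le h6 a1, a2, a3⟩
    have hβ : ¬ Ina β := fun h => lt_irrefl _ (h1 β h le_rfl).1
    have hBk : ∀ k < β, B k < β := fun k hk => by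
      obtain ⟨j, b1, b2, b3⟩ := hl k hk
      exact (D.bi k j b1 b3).trans b2
    have hls := lim_strong hne hl
    have hle : #↥(Lo dec B β) ≤ Order.succ #(Set.Iio β) :=
      (lo_le β).trans (adm_card_lim hG hBk hls.1.le)
    have hIβ : #I ≤ #(Set.Iio β) := Order.lt_succ_iff.1 (lt_of_lt_of_le hL hle)
    exact gch_sing hG hO D hne hl hβ (le_antisymm hIβ h3) p

end Pool.Agent.UPrep
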