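import Pool.Agent.Lib.UPrep.Adc

/-!
# Dec: the decoding function exists

PROOF. For `j : O` let `c = #(Iio j)`, `m = succ (succ (mu c)) < #O` (`mu_lt_of_inO`, `succ_lt_of_inO`) and let `z j`, `B j : O` be
the elements (`ex_card`) with `#(Iio (z j)) = m`, `#(Iio (B j)) = 2 ^ m` (`< #O` by `hO.pow`). `z j < B j` (`lt_of_card`, `Cardinal.cantor`). `bi`: if
`j < i`, `Ina i`, then `c < #(Iio i)`, so `2 ^ m < #(Iio i)` (`mu_lt`; `(InO_ina hi).pow`, `succ d ≤ 2 ^ d`), and `B j < i` (`lt_of_card`). Let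
`T j = {g : Raw O // Adm B g ∧ ∀ k, g k ≠ none → k < j}`; if `Ina j` then `#(T j) ≤ c ≤ m` (`adm_card`, `le_mu`). The type
`Set (Iio (z j)) × Set (T j × Iio (z j) × Iio (z j)) × Set (Iio (z j) × Iio (z j))` has at most `2 ^ m` elements (`m` is infinite), so for
`Ina j` there is a function `σ j` from `Iio (B j)` onto it. `dec j l` for `l < B j`, `Ina j`, `σ j l = (S, r, x)`: `Z = {a | ∃ h : a < z j, ⟨a, h⟩ ∈ S}`,
`R t a b` iff `∃ ht ha hb, (⟨t, ht⟩, ⟨a, ha⟩, ⟨b, hb⟩) ∈ r`, `X a b` iff `∃ ha hb, (⟨a, ha⟩, ⟨b, hb⟩) ∈ x`; otherwise `Z = ∅`. `zb`: `Z ⊆ Iio (z j) ⊆ Iio (B j)`.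
`cod`: given `Z`, `R`, `X` let `ι : Z → Iio (z j)` be injective (`#Z ≤ m = #(Iio (z j))`), `S = range ι`, `r` the set of the
`(t, ι a, ι b)` with `R t a b` (`t ∈ T j` which is in `Lo dec B j`; `Lo dec B j` consists of elements of `T j`), `x` the set of the
`(ι a, ι b)` with `X a b`; take `l < B j` with `σ j l = (S, r, x)`, and `z` = `ι` with values in `(dec j l).Z` (`Equiv.ofInjective`, or
`Equiv.ofBijective`).
-/

set_option autoImplicit false
universe u

namespace Pool.Agent.UPrep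

open Cardinal Pool.Agent.PolF Pool.Agent.UlM

variable {O : Type u} [LinearOrder O] [WellFoundedLT O]

private def TT (B : O → O) (j : O) : Type u := {g : Raw O // Adm B g ∧ ∀ k, g k ≠ none → k < j}

private abbrev Cd (B : O → O) (j z : O) : Type u :=
  Set (Set.Iio z) × Set (TT B j × Set.Iio z × Set.Iio z) × Set (Set.Iio z × Set.Iio z)

private def mkC {B : O → O} {j z : O} (c : Cd B j z) : Code O where
  Z := {a | ∃ h : a < z, (⟨a, h⟩ : Set.Iio z) ∈ c.1}
  R := fun t a b => ∃ (ht : Adm B t ∧ ∀ k, t k ≠ none → k < j) (ha : a < z) (hb : b < z),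
    ((⟨t, ht⟩ : TT B j), (⟨a, ha⟩ : Set.Iio z), (⟨b, hb⟩ : Set.Iio z)) ∈ c.2.1
  X := fun a b => ∃ (ha : a < z) (hb : b < z),
    ((⟨a, ha⟩ : Set.Iio z), (⟨b, hb⟩ : Set.Iio z)) ∈ c.2.2

private theorem card_Cd {B : O → O} {j z : O} {m : Cardinal.{u}} (hm : ℵ₀ ≤ m)
    (hz : #(Set.Iio z) = m) (hT : #(TT B j) ≤ m) : #(Cd B j z) ≤ 2 ^ m := by
  have h2 : ℵ₀ ≤ (2 : Cardinal.{u}) ^ m := hm.trans (Cardinal.cantor m).le
  have hmm : m * m = m := Cardinal.mul_eq_self hm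
  have e1 : #(Set (Set.Iio z)) ≤ 2 ^ m := by rw [Cardinal.mk_set, hz]
  have e3 : #(Set (Set.Iio z × Set.Iio z)) ≤ 2 ^ m := by
    rw [Cardinal.mk_set]
    simp only [Cardinal.mk_prod, Cardinal.lift_id]
    rw [hz, hmm]
  have e2 : #(Set (TT B j × Set.Iio z × Set.Iio z)) ≤ 2 ^ m := by
    rw [Cardinal.mk_set]
    simp only [Cardinal.mk_prod, Cardinal.lift_id]
    rw [hz, hmm]
    refine Cardinal.power_le_power_left two_ne_zero ?_
    calc #(TT B j) * m ≤ m * m := mul_le_mul_left hT m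
      _ = m := hmm
  calc #(Cd B j z) = #(Set (Set.Iio z)) * (#(Set (TT B j × Set.Iio z × Set.Iio z)) *
        #(Set (Set.Iio z × Set.Iio z))) := by
        simp only [Cardinal.mk_prod, Cardinal.lift_id]
    _ ≤ 2 ^ m * (2 ^ m * 2 ^ m) := mul_le_mul' e1 (mul_le_mul' e2 e3)
    _ = 2 ^ m := by rw [Cardinal.mul_eq_self h2, Cardinal.mul_eq_self h2]

theorem exists_dec (hO : InO O) : ∃ (dec : O → O → Code O) (B : O → O), DecH dec B := by
  classical
  -- the cardinals `m j`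
  have hm1 : ∀ j : O, Order.succ (Order.succ (mu #(Set.Iio j))) < #O := fun j =>
    succ_lt_of_inO hO (succ_lt_of_inO hO (mu_lt_of_inO hO (hO.iio j)))
  have hz0 : ∀ j : O, ∃ z : O, #(Set.Iio z) = Order.succ (Order.succ (mu #(Set.Iio j))) :=
    fun j => by
      obtain ⟨z, hz, -⟩ := ex_card (hm1 j)
      exact ⟨z, hz⟩
  have hB0 : ∀ j : O, ∃ b : O, #(Set.Iio b) = 2 ^ (Order.succ (Order.succ (mu #(Set.Iio j)))) :=
    fun j => by
      obtain ⟨z, hz, -⟩ := ex_card (hO.pow _ (hm1 j))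
      exact ⟨z, hz⟩
  choose z hz using hz0
  choose B hB using hB0
  have hzB : ∀ j, z j < B j := fun j => lt_of_card (by
    rw [hz, hB]
    exact Cardinal.cantor _)
  have hbi : ∀ j i, j < i → Ina i → B j < i := by
    intro j i hji hi
    have h1 : #(Set.Iio j) < #(Set.Iio i) := hi.2 j hji
    have h2 : mu #(Set.Iio j) < #(Set.Iio i) := mu_lt hi h1
    have hI : InO ↥(Set.Iio i) := InO_ina hi
    have h3 := hI.pow _ (succ_lt_of_inO hI (succ_lt_of_inO hI h2))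
    refine lt_of_card ?_
    rw [hB]
    exact h3
  have hle : ∀ j : O, mu #(Set.Iio j) ≤ Order.succ (Order.succ (mu #(Set.Iio j))) := fun j =>
    (Order.le_succ _).trans (Order.le_succ _)
  have hσ0 : ∀ j : O, Ina j → ∃ σ : ↥(Set.Iio (B j)) → Cd B j (z j), Function.Surjective σ := by
    intro j hj
    have h1 : #(TT B j) ≤ Order.succ (Order.succ (mu #(Set.Iio j))) :=
      (adm_card hbi hj).trans ((le_mu _).trans (hle j))
    have h2 : ℵ₀ ≤ Order.succ (Order.succ (mu #(Set.Iio j))) :=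
      (hj.1.aleph0_lt.le.trans (le_mu _)).trans (hle j)
    have h3 : #(Cd B j (z j)) ≤ #↥(Set.Iio (B j)) := by
      rw [hB j]
      exact card_Cd h2 (hz j) h1
    obtain ⟨f⟩ := h3
    have hne : Nonempty (Cd B j (z j)) := ⟨(∅, ∅, ∅)⟩
    exact ⟨Function.invFun f, Function.invFun_surjective f.injective⟩
  obtain ⟨dec, hdec1, hdec2⟩ : ∃ dec : O → O → Code O,
      (∀ j, Ina j → ∀ c : Cd B j (z j), ∃ l, l < B j ∧ dec j l = mkC c) ∧
      ∀ j l, (dec j l).Z ⊆ Set.Iio (z j) := by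
    choose σ hσ using hσ0
    refine ⟨fun j l => if h : Ina j ∧ l < B j then mkC (σ j h.1 ⟨l, h.2⟩) else
      ⟨∅, fun _ _ _ => False, fun _ _ => False⟩, ?_, ?_⟩
    · intro j hj c
      obtain ⟨⟨l, hl⟩, hlc⟩ := hσ j hj c
      refine ⟨l, hl, ?_⟩
      have h : Ina j ∧ l < B j := ⟨hj, hl⟩
      simp only [h]
      rw [← hlc]
      rfl
    · intro j l
      by_cases h : Ina j ∧ l < B j
      · simp only [h]
        rintro a ⟨ha, -⟩
        exact ha
      · simp only [h, dif_neg, not_false_eq_true]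
        exact Set.empty_subset _
  refine ⟨dec, B, ?_, ?_, hbi⟩
  · intro j hj Z R X hZ
    have h1 : #Z ≤ #(Set.Iio (z j)) := by rw [hz j]; exact hZ
    obtain ⟨ι⟩ := h1
    obtain ⟨l, hl, hlc⟩ := hdec1 j hj (Set.range ι,
      {p | ∃ (ht : p.1.1 ∈ Lo dec B j) (a b : Z), p.2.1 = ι a ∧ p.2.2 = ι b ∧ R ⟨p.1.1, ht⟩ a b},
      {p | ∃ a b : Z, p.1 = ι a ∧ p.2 = ι b ∧ X a b})
    refine ⟨l, hl, ?_⟩
    rw [hlc]
    refine ⟨Equiv.ofBijective (fun a => ⟨(ι a).1, (ι a).2, a, rfl⟩) ⟨?_, ?_⟩, ?_, ?_⟩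
    · intro a b hab
      have h2 := Subtype.ext_iff.1 hab
      exact ι.injective (Subtype.ext h2)
    · rintro ⟨a, ha, b, hb⟩
      refine ⟨b, ?_⟩
      apply Subtype.ext
      show (ι b).1 = a
      rw [hb]
    · intro t a b
      constructor
      · rintro ⟨ht, ha, hb, ht', a', b', h2, h3, h4⟩
        have h5 : a = a' := ι.injective (Subtype.ext (congrArg Subtype.val h2))
        have h6 : b = b' := ι.injective (Subtype.ext (congrArg Subtype.val h3))
        subst h5 h6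
        exact h4
      · intro h
        exact ⟨⟨t.2.1.1, t.2.2⟩, (ι a).2, (ι b).2, t.2, a, b, rfl, rfl, h⟩
    · intro a b
      constructor
      · rintro ⟨ha, hb, a', b', h2, h3, h4⟩
        have h5 : a = a' := ι.injective (Subtype.ext (congrArg Subtype.val h2))
        have h6 : b = b' := ι.injective (Subtype.ext (congrArg Subtype.val h3))
        subst h5 h6
        exact h4
      · intro h
        exact ⟨(ι a).2, (ι b).2, a, b, rfl, rfl, h⟩
  · intro j l a ha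
    exact lt_trans (hdec2 j l ha) (hzB j)

end Pool.Agent.UPrep
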