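import Pool.Agent.Lib.UlM.Defs
import Pool.Agent.Lib.PolF.Cnd

/-!
# Inf: inaccessible elements of a well-ordered type
-/

set_option autoImplicit false
universe u

namespace Pool.Agent.UPrep

open Cardinal Pool.Agent.PolF Pool.Agent.UlM

variable {O : Type u} [LinearOrder O] [WellFoundedLT O]

private theorem inf_type {K : Type u} [LinearOrder K] [WellFoundedLT K]
    (h : ∀ b : K, #(Set.Iio b) < #K) : (#K).ord = Ordinal.type (α := K) (· < ·) := by
  refine le_antisymm (Cardinal.ord_le_type _) ?_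
  refine le_of_forall_lt fun o ho => ?_
  obtain ⟨b, rfl⟩ := Ordinal.typein_surj (α := K) (· < ·) ho
  rw [Cardinal.lt_ord, Ordinal.card_typein]
  exact h b

private theorem inf_reg {K : Type u} [LinearOrder K] [WellFoundedLT K] (hK : InO K) :
    (#K).IsRegular := by
  refine ⟨hK.unc.le, ?_⟩
  rw [inf_type hK.iio, Ordinal.cof_type, Order.le_cof_iff]
  intro S hS
  by_contra hlt
  obtain ⟨b, hb⟩ := hK.bdd S (not_le.1 hlt)
  obtain ⟨c, hc, hbc⟩ := hS b
  exact absurd (hb c hc) (not_lt.2 hbc)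

theorem InO_ina {i : O} (h : Ina i) : InO ↥(Set.Iio i) := by
  have hi : ∀ b : ↥(Set.Iio i), #(Set.Iio b) < #(Set.Iio i) := by
    intro b
    refine lt_of_le_of_lt ?_ (h.2 b.1 b.2)
    refine Cardinal.mk_le_of_injective
      (f := fun x : ↥(Set.Iio b) => (⟨x.1.1, x.2⟩ : ↥(Set.Iio b.1))) ?_
    intro x y hxy
    exact Subtype.ext (Subtype.ext (Subtype.mk.inj hxy))
  refine ⟨fun S hS => ?_, hi, fun c hc => h.1.isStrongLimit.isStrongPrelimit hc, h.1.aleph0_lt⟩
  by_contra hcon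
  push Not at hcon
  have h1 : IsCofinal S := fun a => by
    obtain ⟨s, hs, h⟩ := hcon a
    exact ⟨s, hs, h⟩
  have h2 := Order.cof_le h1
  rw [← Ordinal.cof_type, ← inf_type hi, h.1.isRegular.cof_ord] at h2
  exact absurd hS (not_lt.mpr h2)

theorem ina_bdd {i : O} (h : Ina i) (s : Set O) (hs : s ⊆ Set.Iio i)
    (hc : #s < #(Set.Iio i)) : ∃ b < i, ∀ x ∈ s, x < b := by
  obtain ⟨b, hb⟩ := (InO_ina h).bdd {x | x.1 ∈ s} (lt_of_le_of_lt
    (Cardinal.mk_le_of_injective (f := fun x : ↥{x : ↥(Set.Iio i) | x.1 ∈ s} =>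
      (⟨x.1.1, x.2⟩ : ↥s)) (fun x y hxy => Subtype.ext (Subtype.ext
        (Subtype.mk.inj hxy)))) hc)
  exact ⟨b.1, b.2, fun x hx => hb ⟨x, hs hx⟩ hx⟩

theorem ina_lim {i : O} (h : Ina i) : (∃ j, j < i) ∧ ∀ j < i, ∃ k, j < k ∧ k < i := by
  have h1 : ∀ s : Set O, s.Finite → #s < #(Set.Iio i) := fun s hs =>
    (Cardinal.lt_aleph0_iff_set_finite.2 hs).trans h.1.aleph0_lt
  refine ⟨?_, fun j hj => ?_⟩
  · obtain ⟨b, hb, -⟩ := ina_bdd h ∅ (Set.empty_subset _) (h1 _ Set.finite_empty)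
    exact ⟨b, hb⟩
  · obtain ⟨b, hb, hx⟩ := ina_bdd h {j} (Set.singleton_subset_iff.2 hj) (h1 _ (Set.finite_singleton _))
    exact ⟨b, hx j rfl, hb⟩

theorem le_mu (c : Cardinal.{u}) : c ≤ mu c :=
  le_ciSup (f := fun n : ℕ => (Order.succ^[n]) c) Cardinal.bddAbove_of_small 0

theorem succ_lt_of_inO (hO : InO O) {c : Cardinal.{u}} (h : c < #O) : Order.succ c < #O :=
  (Order.succ_le_of_lt (Cardinal.cantor c)).trans_lt (hO.pow c h)

theorem mu_lt_of_inO (hO : InO O) {c : Cardinal.{u}} (h : c < #O) : mu c < #O := by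
  have hr := inf_reg hO
  have h1 : ∀ n : ℕ, (Order.succ^[n]) c < #O := by
    intro n
    induction n with
    | zero => exact h
    | succ n ih =>
      rw [Function.iterate_succ_apply']
      exact succ_lt_of_inO hO ih
  unfold mu
  refine Cardinal.lift_iSup_lt_of_lt_cof_ord ?_ h1
  rw [Cardinal.lift_uzero, hr.cof_ord]
  simpa using hO.unc

theorem mu_lt {i : O} (h : Ina i) {c : Cardinal.{u}} (hc : c < #(Set.Iio i)) :
    mu c < #(Set.Iio i) :=
  mu_lt_of_inO (InO_ina h) hc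

theorem ex_card {c : Cardinal.{u}} (h : c < #O) :
    ∃ j : O, #(Set.Iio j) = c ∧ ∀ k < j, #(Set.Iio k) < c := by
  have h1 : c.ord < Ordinal.type (α := O) (· < ·) :=
    (Cardinal.ord_lt_ord.2 h).trans_le (Cardinal.ord_le_type _)
  obtain ⟨j, hj⟩ := Ordinal.typein_surj (α := O) (· < ·) h1
  refine ⟨j, ?_, fun k hk => ?_⟩
  · have h2 := Ordinal.card_typein (r := ((· < ·) : O → O → Prop)) j
    rw [hj, Cardinal.card_ord] at h2
    exact h2.symm
  · have h3 : Ordinal.typein (α := O) (· < ·) k < c.ord := by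
      rw [← hj]
      exact (Ordinal.typein_lt_typein (· < ·)).2 hk
    rw [Cardinal.lt_ord, Ordinal.card_typein] at h3
    exact h3

/-- if `#(Iio o) = c` and `c < #(Iio i)` then `o < i` -/
theorem lt_of_card {o i : O} (h : #(Set.Iio o) < #(Set.Iio i)) : o < i := by
  by_contra hcon
  exact absurd h (not_lt.2 (Cardinal.mk_le_mk_of_subset (Set.Iio_subset_Iio (not_lt.1 hcon))))

/-- successors -/
theorem ex_succ (hO : ∀ b : O, ∃ c, b < c) (j : O) : ∃ j' : O, ∀ k, k < j' ↔ k ≤ j := by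
  have hwf : WellFounded ((· < ·) : O → O → Prop) := wellFounded_lt
  have hne : {c : O | j < c}.Nonempty := hO j
  have hm : j < hwf.min _ hne := hwf.min_mem _ hne
  refine ⟨hwf.min _ hne, fun k => ⟨fun hk => ?_, fun hk => hk.trans_lt hm⟩⟩
  by_contra hcon
  exact hwf.not_lt_min _ (show k ∈ {c : O | j < c} from not_le.1 hcon) hk

theorem inO_noMax (hO : InO O) (b : O) : ∃ c, b < c := by
  obtain ⟨c, hc⟩ := hO.bdd {b} ((Cardinal.lt_aleph0_iff_set_finite.2
    (Set.finite_singleton b)).trans hO.unc)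
  exact ⟨c, hc b rfl⟩

end Pool.Agent.UPrep
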