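import Pool.Agent.Lib.UPrep.Rs
import Pool.Agent.Lib.UPrep.Inf

/-!
# Adc: the number of conditions

PROOF. `adm_card`: let `Ina j`. For `g` in the set let `b < j` bound its support (`eas` for `i = j`). The elements `B k`, `k < b`, are below
`j` (`hB`) and form a set of fewer than `#(Iio j)` elements (`Ina.2`), so there is `γ < j` above all of them (`ina_bdd`); the values of `g` are in
`Iio γ × Iio γ`. So `g` is determined by `b`, `γ` and a function from `Iio b` to `Option (Iio γ × Iio γ)`; for fixed `b`, `γ` the number of these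
functions is `< #(Iio j)` (`(InO_ina hj).pow`, `iio`; a power `c ^ d ≤ 2 ^ (max c d)` for infinite `max c d`); a union of
`#(Iio j) * #(Iio j)` sets of fewer than `#(Iio j)` elements has at most `#(Iio j)` elements (`Cardinal.mk_iUnion_le`, or an injection into a sigma
type, `Cardinal.mk_sigma`, `sum_le`). `adm_card_lt`: for `β < i` the same with the fixed `b = β` and a fixed `γ`. `adm_card_lt_top`,
`adm_card_top`: the same with `hO` in place of `InO_ina` (`bd` gives the bound of the support, `hO.bdd` the bound `γ` of the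
`B k`). `adm_card_lim`: if `B k < β` for all `k < β`, a condition with support below `β` is a function from `Iio β` to
`Option (Iio β × Iio β)`; their number is at most `c ^ c = 2 ^ c = succ c` with `c = #(Iio β)`.
-/

set_option autoImplicit false
universe u

namespace Pool.Agent.UPrep

open Cardinal Pool.Agent.PolF Pool.Agent.UlM

variable {O : Type u} [LinearOrder O] [WellFoundedLT O] {B : O → O}

omit [WellFoundedLT O] in
/-- the conditions with support below `b` and values below `γ` -/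
private def adcD (b γ : O) : Set (Raw O) :=
  {g | (∀ k, g k ≠ none → k < b) ∧ ∀ k l a, g k = some (l, a) → l < γ ∧ a < γ}

omit [WellFoundedLT O] in
private theorem adcD_card (b γ : O) {m : Cardinal.{u}} (hm : ℵ₀ ≤ m) (hb : #(Set.Iio b) ≤ m)
    (hγ : #(Set.Iio γ) ≤ m) : #(adcD b γ) ≤ (2 : Cardinal.{u}) ^ m := by
  have h1 : #(adcD b γ) ≤ #(Set (Set.Iio b × (Set.Iio γ × Set.Iio γ))) := by
    refine Cardinal.mk_le_of_injective (f := fun g : ↥(adcD b γ) =>
      {z : Set.Iio b × (Set.Iio γ × Set.Iio γ) | g.1 z.1.1 = some (z.2.1.1, z.2.2.1)}) ?_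
    intro g g' hgg
    have key : ∀ (f f' : ↥(adcD b γ)),
        {z : Set.Iio b × (Set.Iio γ × Set.Iio γ) | f.1 z.1.1 = some (z.2.1.1, z.2.2.1)} =
        {z : Set.Iio b × (Set.Iio γ × Set.Iio γ) | f'.1 z.1.1 = some (z.2.1.1, z.2.2.1)} →
        ∀ k x, f.1 k = some x → f'.1 k = some x := by
      intro f f' he k x hx
      have hk : k < b := f.2.1 k (by rw [hx]; simp)
      obtain ⟨h2, h3⟩ := f.2.2 k x.1 x.2 hx
      have h4 : ((⟨k, hk⟩, (⟨x.1, h2⟩, ⟨x.2, h3⟩)) : Set.Iio b × (Set.Iio γ × Set.Iio γ)) ∈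
          {z : Set.Iio b × (Set.Iio γ × Set.Iio γ) | f'.1 z.1.1 = some (z.2.1.1, z.2.2.1)} := by
        rw [← he]
        exact hx
      exact h4
    refine Subtype.ext (funext fun k => ?_)
    rcases h2 : g.1 k with _ | x
    · rcases h3 : g'.1 k with _ | x
      · rfl
      · rw [key g' g hgg.symm k x h3] at h2
        exact absurd h2 (by simp)
    · exact (key g g' hgg k x h2).symm
  refine h1.trans ?_
  rw [Cardinal.mk_set]
  refine Cardinal.power_le_power_left two_ne_zero ?_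
  rw [Cardinal.mk_prod, Cardinal.mk_prod, Cardinal.lift_id, Cardinal.lift_id]
  calc #(Set.Iio b) * (Cardinal.lift (#(Set.Iio γ)) * Cardinal.lift (#(Set.Iio γ)))
      ≤ m * (m * m) := by
        rw [Cardinal.lift_id]
        exact mul_le_mul' hb (mul_le_mul' hγ hγ)
    _ = m := by rw [Cardinal.mul_eq_self hm, Cardinal.mul_eq_self hm]

omit [WellFoundedLT O] in
private theorem adcD_lt {κ : Cardinal.{u}} (hu : ℵ₀ < κ) (hp : ∀ c < κ, (2 : Cardinal.{u}) ^ c < κ)
    {b γ : O} (hb : #(Set.Iio b) < κ) (hγ : #(Set.Iio γ) < κ) : #(adcD b γ) < κ := by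
  refine (adcD_card b γ (m := max ℵ₀ (max (#(Set.Iio b)) (#(Set.Iio γ)))) (le_max_left _ _)
    ((le_max_left _ _).trans (le_max_right _ _))
    ((le_max_right _ _).trans (le_max_right _ _))).trans_lt (hp _ ?_)
  exact max_lt hu (max_lt hb hγ)

private theorem adc_img (β : O) : #{x : O // ∃ k < β, B k = x} ≤ #(Set.Iio β) := by
  have e : {x : O | ∃ k < β, B k = x} = B '' Set.Iio β := rfl
  show #{x : O | ∃ k < β, B k = x} ≤ _
  rw [e]
  exact Cardinal.mk_image_le

/-- conditions with support below `β`, if the bounds `B k`, `k < β`, are at most `γ` -/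
private theorem adc_sub {β γ : O} (h : ∀ k < β, B k ≤ γ) :
    {g : Raw O | Adm B g ∧ ∀ k, g k ≠ none → k < β} ⊆ adcD β γ := by
  rintro g ⟨h1, h2⟩
  refine ⟨h2, fun k l a hk => ?_⟩
  obtain ⟨-, h3, h4⟩ := h1.ina k l a hk
  have h5 := h k (h2 k (by rw [hk]; simp))
  exact ⟨h3.trans_le h5, h4.trans_le h5⟩

theorem adm_card (hB : ∀ j i, j < i → Ina i → B j < i) {j : O} (hj : Ina j) :
    #{g : Raw O // Adm B g ∧ ∀ k, g k ≠ none → k < j} ≤ #(Set.Iio j) := by
  have hI := InO_ina hj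
  have hsub : {g : Raw O | Adm B g ∧ ∀ k, g k ≠ none → k < j} ⊆
      ⋃ z : Set.Iio j × Set.Iio j, adcD z.1.1 z.2.1 := by
    rintro g ⟨h1, h2⟩
    obtain ⟨b, hb, h3⟩ := h1.eas j hj
    have h4 : ∀ k, g k ≠ none → k < b := fun k hk => h3 k hk (h2 k hk)
    obtain ⟨γ, hγ, h5⟩ := ina_bdd hj {x : O | ∃ k < b, B k = x} (by
      rintro x ⟨k, hk, rfl⟩
      exact hB k j (hk.trans hb) hj) ((adc_img b).trans_lt (hj.2 b hb))
    refine Set.mem_iUnion.2 ⟨(⟨b, hb⟩, ⟨γ, hγ⟩), ?_⟩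
    exact adc_sub (fun k hk => (h5 (B k) ⟨k, hk, rfl⟩).le) ⟨h1, h4⟩
  have hc : ℵ₀ ≤ #(Set.Iio j) := hI.unc.le
  show #{g : Raw O | Adm B g ∧ ∀ k, g k ≠ none → k < j} ≤ _
  refine (Cardinal.mk_le_mk_of_subset hsub).trans ((Cardinal.mk_iUnion_le _).trans ?_)
  calc #(Set.Iio j × Set.Iio j) * ⨆ z : Set.Iio j × Set.Iio j, #(adcD z.1.1 z.2.1)
      ≤ #(Set.Iio j × Set.Iio j) * #(Set.Iio j) := by
        refine mul_le_mul' le_rfl (ciSup_le' fun z => ?_)
        exact (adcD_lt hI.unc hI.pow (hj.2 _ z.1.2) (hj.2 _ z.2.2)).le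
    _ = #(Set.Iio j) := by
        rw [Cardinal.mk_prod, Cardinal.lift_id, Cardinal.mul_eq_self hc,
          Cardinal.mul_eq_self hc]

theorem adm_card_lt (hB : ∀ j i, j < i → Ina i → B j < i) {β i : O} (hi : Ina i) (h : β < i) :
    #{g : Raw O // Adm B g ∧ ∀ k, g k ≠ none → k < β} < #(Set.Iio i) := by
  have hI := InO_ina hi
  obtain ⟨γ, hγ, h5⟩ := ina_bdd hi {x : O | ∃ k < β, B k = x} (by
    rintro x ⟨k, hk, rfl⟩
    exact hB k i (hk.trans h) hi) ((adc_img β).trans_lt (hi.2 β h))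
  refine (Cardinal.mk_le_mk_of_subset
    (adc_sub (fun k hk => (h5 (B k) ⟨k, hk, rfl⟩).le))).trans_lt ?_
  exact adcD_lt hI.unc hI.pow (hi.2 _ h) (hi.2 _ hγ)

theorem adm_card_lt_top (hO : InO O) (β : O) :
    #{g : Raw O // Adm B g ∧ ∀ k, g k ≠ none → k < β} < #O := by
  obtain ⟨γ, h5⟩ := hO.bdd {x : O | ∃ k < β, B k = x} ((adc_img β).trans_lt (hO.iio β))
  refine (Cardinal.mk_le_mk_of_subset
    (adc_sub (fun k hk => (h5 (B k) ⟨k, hk, rfl⟩).le))).trans_lt ?_
  exact adcD_lt hO.unc hO.pow (hO.iio _) (hO.iio _)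

theorem adm_card_top (hO : InO O) : #{g : Raw O // Adm B g} ≤ #O := by
  have hsub : {g : Raw O | Adm B g} ⊆
      ⋃ β : O, {g : Raw O | Adm B g ∧ ∀ k, g k ≠ none → k < β} := by
    intro g h1
    obtain ⟨b, hb⟩ := h1.bd
    exact Set.mem_iUnion.2 ⟨b, h1, hb⟩
  show #{g : Raw O | Adm B g} ≤ _
  refine (Cardinal.mk_le_mk_of_subset hsub).trans ((Cardinal.mk_iUnion_le _).trans ?_)
  calc #O * ⨆ β : O, #{g : Raw O | Adm B g ∧ ∀ k, g k ≠ none → k < β}
      ≤ #O * #O := mul_le_mul' le_rfl (ciSup_le' fun β => (adm_card_lt_top hO β).le)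
    _ = #O := Cardinal.mul_eq_self hO.unc.le

theorem adm_card_lim (hG : ∀ c : Cardinal.{u}, ℵ₀ ≤ c → (2 : Cardinal.{u}) ^ c = Order.succ c)
    {β : O} (hβ : ∀ k < β, B k < β) (hc : ℵ₀ ≤ #(Set.Iio β)) :
    #{g : Raw O // Adm B g ∧ ∀ k, g k ≠ none → k < β} ≤ Order.succ #(Set.Iio β) := by
  rw [← hG _ hc]
  exact (Cardinal.mk_le_mk_of_subset (adc_sub (fun k hk => (hβ k hk).le))).trans
    (adcD_card β β hc le_rfl le_rfl)

end Pool.Agent.UPrep
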