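import Pool.Agent.Lib.UPrep.Cano

/-!
# Cana: many names at once

PROOF. Let `ν = max ℵ₀ (max #Ξ #(Lo β₀))`; as in `red_lo`, `tail_tl` holds at `β₀` with `ν` (by `h0`, `lo_card_lt`, `lo_card_lt_top`). Apply `red` to
`P = Lo β₀`, `Z = Hi β₀`, `b = pHi β₀ g` and the sets `D ξ = {w | Cano (β ξ) (c ξ) (pGl β₀ w.1 w.2)}`: open by `cano_mono` (with `gl_le`), dense by `cano_dense` (`pGl_eq` and `gl_le` transport
between conditions and pairs; the hypothesis of `cano_dense` for `ξ` is `hν ξ`). It gives `a` with `XT a b` such that for every `ξ` and `t` there is `t' ≤ t` with `(t', a) ∈ D ξ`.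
`g' = pGl β₀ (pLo β₀ g) a` is `≤ g` (`xr`, `gl_le`) and `Cano (β ξ) (c ξ) g'` by `cano_loc`.
-/

set_option autoImplicit false
universe u

namespace Pool.Agent.UPrep

open Cardinal Pool.Agent.PolF Pool.Agent.UlM

variable {O : Type u} [LinearOrder O] [WellFoundedLT O] {dec : O → O → Code O} {B : O → O}

theorem cano_all (hO : InO O) (D : DecH dec B) (β₀ : O) {Ξ : Type u} (hΞ : #Ξ < #O)
    (h0 : ∀ j, Ina j → β₀ ≤ j → β₀ < j ∧ #Ξ < #(Set.Iio j)) (β : Ξ → O) (hβ : ∀ ξ, β₀ ≤ β ξ)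
    (Y : Ξ → Type u) (hY : ∀ ξ, #(Y ξ) < #O)
    (hν : ∀ ξ, ∀ j, Ina j → β ξ ≤ j → β ξ < j ∧ #(Y ξ) < #(Set.Iio j))
    (c : ∀ ξ, Y ξ → Set ↥(Pk dec B)) (g : ↥(Pk dec B)) :
    ∃ g', lP dec B g' g ∧ ∀ ξ, Cano (β ξ) (c ξ) g' := by
  have hνO : max ℵ₀ (max #Ξ #↥(Lo dec B β₀)) < #O :=
    max_lt hO.unc (max_lt hΞ (lo_card_lt_top hO β₀))
  have hν' : ∀ j, Ina j → (j = β₀ → max ℵ₀ (max #Ξ #↥(Lo dec B β₀)) ≤ mu #(Set.Iio j)) ∧
      (β₀ < j → max ℵ₀ (max #Ξ #↥(Lo dec B β₀)) < #(Set.Iio j)) := by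
    intro j hj
    refine ⟨fun h => ?_, fun h => ?_⟩
    · exact absurd (h0 j hj h.ge).1 (by rw [h]; exact lt_irrefl _)
    · exact max_lt hj.1.aleph0_lt (max_lt (h0 j hj h.le).2 (lo_card_lt D hj h))
  have htl := tail_tl hO D β₀ hνO hν'
  obtain ⟨a, hab, ha⟩ := red (lL_refl β₀) (lL_trans β₀) htl (le_max_left _ _)
    ((le_max_right #Ξ _).trans (le_max_right _ _)) (ι := Ξ)
    ((le_max_left _ _).trans (le_max_right _ _))
    (fun ξ => {w | Cano (β ξ) (c ξ) (pGl β₀ w.1 w.2)})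
    (fun ξ z w hle hw => cano_mono (β ξ) (c ξ) _ _ ((gl_le β₀ z w).2 hle) hw)
    (by
      intro ξ z
      obtain ⟨g', hg', hc'⟩ := cano_dense hO D (β ξ) (hY ξ) (hν ξ) (c ξ) (pGl β₀ z.1 z.2)
      refine ⟨(pLo β₀ g', pHi β₀ g'), (gl_le β₀ _ _).1 ?_, ?_⟩
      · change lP dec B (pGl β₀ (pLo β₀ g') (pHi β₀ g')) _
        rw [pGl_eq]
        exact hg'
      · change Cano (β ξ) (c ξ) (pGl β₀ (pLo β₀ g') (pHi β₀ g'))
        rw [pGl_eq]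
        exact hc')
    (pHi β₀ g)
  refine ⟨pGl β₀ (pLo β₀ g) a, ?_, fun ξ => cano_loc (hβ ξ) (c ξ) (pLo β₀ g) a
    fun t₁ _ => ha ξ t₁⟩
  have h1 := (gl_le β₀ (pLo β₀ g, a) (pLo β₀ g, pHi β₀ g)).2 ⟨lL_refl β₀ _, htl.xr _ _ _ hab⟩
  change lP dec B _ (pGl β₀ (pLo β₀ g) (pHi β₀ g)) at h1
  rw [pGl_eq] at h1
  exact h1

end Pool.Agent.UPrep
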