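import Pool.Agent.Lib.UPrep.Rlo

/-!
# Cano: names decided by the lower part

`Cano β c g`: below `g`, membership in `c` depends only on the coordinates below `β`, the upper part being that of `g`.

PROOF. `cano_dense`: `red_lo` gives `g' ≤ g`, `c'`. For `h ≤ g'` put `m = pGl β (pLo β h) (pHi β g')`; `m ≤ g'` (`gl_le`: `lL (pLo h) (pLo g')` and `RT` is reflexive),
so `Mem c y m ↔ Mem c' y (pLo β m) = Mem c' y (pLo β h) ↔ Mem c y h`. `cano_mono`: let `g₁ ≤ g`, `h ≤ g₁`, `Mem c y h`; `Cano` at `g` gives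
`Mem c y (pGl β (pLo h) (pHi g))`, and `pGl β (pLo h) (pHi g₁)` is below it (`g₁ ≤ g` gives `RT β (pLo g₁) (pHi g₁) (pHi g)` by `gl_le`, and `tl_down` gives it at `pLo h`, which is
`≤ pLo g₁`); `Mem_down`. `cano_loc`: let `g = pGl β₀ t a`, `h ≤ g`, `Mem c y h`, `m = pGl β (pLo β h) (pHi β g)`; prove `Mem c y m` by `Mem_loc`: let
`m₁ ≤ m`. Its part below `β₀` is `≤ pLo β₀ h ≤ t` (as `β₀ ≤ β`, `pLo β₀ m = pLo β₀ h`: `rs_Iio_gl`, `rs_Iio_rs`). By hypothesis there is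
`t' ≤ pLo β₀ m₁` with `Cano β c (pGl β₀ t' a)`. Let `h' = pGl β₀ t' (pHi β₀ h)`: `h' ≤ h` and `h' ≤ pGl β₀ t' a` (`h ≤ pGl β₀ t a`, `gl_le`, `tl_down`); so `Mem c y h'`
(`Mem_down`), and `Cano` gives `Mem c y (pGl β (pLo β h') (pHi β (pGl β₀ t' a)))`, where `pHi β (pGl β₀ t' a) = pHi β g` (both are `rs (Ici β) a`, as `β₀ ≤ β`). Let
`m₂ = pGl β₀ t' (pHi β₀ m₁) ≤ m₁`. Then `m₂ ≤ pGl β (pLo β h') (pHi β g)`: by the clauses of `lr`: at a coordinate `k < β₀` the value of the right side is that of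
`t'` (reflexivity); at `β₀ ≤ k < β` it is the value of `h`, which is the value of `m`, and `m₁ ≤ m` gives the clause at `rs (Iio k) m₁`, `down` gives it at
`rs (Iio k) m₂`; at `k ≥ β` it is the value of `g`, which is the value of `m`, the same. So `Mem c y m₂`.
-/

set_option autoImplicit false
universe u

namespace Pool.Agent.UPrep

open Cardinal Pool.Agent.PolF Pool.Agent.UlM

variable {O : Type u} [LinearOrder O] [WellFoundedLT O] {dec : O → O → Code O} {B : O → O}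

/-- below `g`, membership in `c` is decided by the coordinates below `β` and the upper part of `g` -/
def Cano {Y : Type u} (β : O) (c : Y → Set ↥(Pk dec B)) (g : ↥(Pk dec B)) : Prop :=
  ∀ y h, lP dec B h g → Mem (lP dec B) c y h → Mem (lP dec B) c y (pGl β (pLo β h) (pHi β g))

private theorem cano_lo {β : O} {g h : ↥(Pk dec B)} (h1 : lP dec B h g) :
    lL dec B β (pLo β h) (pLo β g) := lr_rs β h1

private theorem cano_rt {β : O} {g h : ↥(Pk dec B)} (h1 : lP dec B h g) {t : ↥(Lo dec B β)}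
    (ht : lL dec B β t (pLo β h)) :
    lP dec B (pGl β t (pHi β h)) (pGl β t (pHi β g)) := by
  have h2 : lr dec (gl β (rs (Set.Iio β) h.1) (rs (Set.Ici β) h.1))
      (gl β (rs (Set.Iio β) g.1) (rs (Set.Ici β) g.1)) := by
    rw [gl_rs, gl_rs]
    exact h1
  have h3 := ((lr_gl (rs_lo h.2 β) (rs_lo g.2 β) (rs_hi h.2 β) (rs_hi g.2 β)).1 h2).2
  exact tl_down β (pLo β h) t (pHi β h) (pHi β g) ht h3

private theorem cano_dn {β : O} {h : ↥(Pk dec B)} {t : ↥(Lo dec B β)}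
    (ht : lL dec B β t (pLo β h)) : lP dec B (pGl β t (pHi β h)) h := by
  have h2 := lr_dn (dec := dec) t.2 (rs_lo h.2 β) (rs_hi h.2 β) ht
  rw [gl_rs] at h2
  exact h2

theorem cano_dense (hO : InO O) (D : DecH dec B) (β : O) {Y : Type u} (hY : #Y < #O)
    (hν : ∀ j, Ina j → β ≤ j → β < j ∧ #Y < #(Set.Iio j)) (c : Y → Set ↥(Pk dec B))
    (g : ↥(Pk dec B)) : ∃ g', lP dec B g' g ∧ Cano β c g' := by
  obtain ⟨g', hg', -, c', hc'⟩ := red_lo hO D β hY hν c g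
  refine ⟨g', hg', fun y h hh hm => ?_⟩
  have hm' : lP dec B (pGl β (pLo β h) (pHi β g')) g' := cano_dn (cano_lo hh)
  rw [hc' _ hm' y, pLo_gl]
  exact (hc' h hh y).1 hm

theorem cano_mono (β : O) {Y : Type u} (c : Y → Set ↥(Pk dec B)) (g g₁ : ↥(Pk dec B))
    (h : lP dec B g₁ g) (hc : Cano β c g) : Cano β c g₁ := by
  intro y h' hh' hm
  have h1 := hc y h' (lP_trans _ _ _ hh' h) hm
  exact Mem_down lP_trans (cano_rt h (cano_lo hh')) h1

theorem cano_loc {β₀ β : O} (hβ : β₀ ≤ β) {Y : Type u} (c : Y → Set ↥(Pk dec B))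
    (t : ↥(Lo dec B β₀)) (a : ↥(Hi dec B β₀))
    (h : ∀ t₁, lL dec B β₀ t₁ t → ∃ t', lL dec B β₀ t' t₁ ∧ Cano β c (pGl β₀ t' a)) :
    Cano β c (pGl β₀ t a) := by
  intro y h' hh' hm
  refine Mem_loc lP_trans lP_refl fun m₁ hm₁ => ?_
  have e1 : pLo β₀ (pGl β (pLo β h') (pHi β (pGl β₀ t a))) = pLo β₀ h' := by
    refine Subtype.ext ?_
    change rs (Set.Iio β₀) (gl β (rs (Set.Iio β) h'.1) _) = rs (Set.Iio β₀) h'.1
    rw [rs_Iio_gl hβ, rs_Iio_rs hβ]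
  have h1 : lL dec B β₀ (pLo β₀ m₁) (pLo β₀ h') := by
    rw [← e1]
    exact cano_lo hm₁
  have h2 : lL dec B β₀ (pLo β₀ m₁) t := by
    refine lL_trans _ _ _ _ h1 ?_
    have h3 := cano_lo (β := β₀) hh'
    rw [pLo_gl] at h3
    exact h3
  obtain ⟨t', ht', hc'⟩ := h _ h2
  have h3 : lL dec B β₀ t' (pLo β₀ h') := lL_trans _ _ _ _ ht' h1
  have h4 : Mem (lP dec B) c y (pGl β₀ t' (pHi β₀ h')) := Mem_down lP_trans (cano_dn h3) hm
  have h5 : lP dec B (pGl β₀ t' (pHi β₀ h')) (pGl β₀ t' a) := by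
    have h6 := cano_rt hh' h3
    rw [pHi_gl] at h6
    exact h6
  have h7 := hc' y _ h5 h4
  have e2 : pGl β (pLo β (pGl β₀ t' (pHi β₀ h'))) (pHi β (pGl β₀ t' a)) =
      pGl β₀ t' (pHi β₀ (pGl β (pLo β h') (pHi β (pGl β₀ t a)))) := by
    refine Subtype.ext ?_
    change gl β (rs (Set.Iio β) (gl β₀ t'.1 (rs (Set.Ici β₀) h'.1)))
      (rs (Set.Ici β) (gl β₀ t'.1 a.1)) =
      gl β₀ t'.1 (rs (Set.Ici β₀) (gl β (rs (Set.Iio β) h'.1) (rs (Set.Ici β) (gl β₀ t.1 a.1))))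
    funext k
    unfold gl rs
    by_cases hk0 : k < β₀
    · have hk : k < β := hk0.trans_le hβ
      simp [hk0, hk]
    · by_cases hk : k < β
      · simp [hk0, hk, not_lt.1 hk0]
      · simp [hk0, hk, not_lt.1 hk0, not_lt.1 hk]
  rw [e2] at h7
  exact ⟨pGl β₀ t' (pHi β₀ m₁), cano_dn ht', Mem_down lP_trans (cano_rt hm₁ ht') h7⟩

end Pool.Agent.UPrep
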