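import Pool.Agent.Lib.UPrep.Adc

/-!
# Cnt: the number of conditions of the preparation
-/

set_option autoImplicit false
universe u

namespace Pool.Agent.UPrep

open Cardinal Pool.Agent.PolF Pool.Agent.UlM

variable {O : Type u} [LinearOrder O] [WellFoundedLT O] {dec : O → O → Code O} {B : O → O}

theorem lo_le (β : O) :
    #↥(Lo dec B β) ≤ #{g : Raw O // Adm B g ∧ ∀ k, g k ≠ none → k < β} :=
  Cardinal.mk_le_of_injective (f := fun g => ⟨g.1, g.2.1.1, g.2.2⟩) (by
    intro a b h
    exact Subtype.ext (congrArg (fun x => x.1) h))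

theorem lo_card (D : DecH dec B) {j : O} (hj : Ina j) : #↥(Lo dec B j) ≤ #(Set.Iio j) :=
  (lo_le j).trans (adm_card D.bi hj)

theorem lo_card_lt (D : DecH dec B) {β i : O} (hi : Ina i) (h : β < i) :
    #↥(Lo dec B β) < #(Set.Iio i) :=
  (lo_le β).trans_lt (adm_card_lt D.bi hi h)

theorem lo_card_lt_top (hO : InO O) (β : O) : #↥(Lo dec B β) < #O :=
  (lo_le β).trans_lt (adm_card_lt_top hO β)

theorem pk_card (hO : InO O) : #↥(Pk dec B) ≤ #O :=
  (Cardinal.mk_le_of_injective (f := fun g : ↥(Pk dec B) => (⟨g.1, g.2.1⟩ : {g : Raw O // Adm B g}))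
    (by
      intro a b h
      exact Subtype.ext (congrArg (fun x => x.1) h))).trans (adm_card_top hO)

end Pool.Agent.UPrep
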