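import Pool.Agent.Lib.UlM.Tl

/-!
# The preparation: definitions

`O` is the well-ordered set of the ordinals below an inaccessible cardinal `κ`. A condition is a partial function
`g` from `O`; its value at an inaccessible `j` is a pair (label, element); the label stands for a block over
the conditions with support below `j`, and the element is an element of this block.
-/

set_option autoImplicit false
universe u

namespace Pool.Agent.UPrep

open Cardinal Pool.Agent.PolF Pool.Agent.UlM

/-- raw conditions -/
abbrev Raw (O : Type u) : Type u := O → Option (O × O)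

/-- what a label stands for: a set `Z`, the relation `R t a b` (`t` forces `a ≤ b`), the direct order `X` -/
structure Code (O : Type u) where
  Z : Set O
  R : Raw O → O → O → Prop
  X : O → O → Prop

section
variable {O : Type u} [LinearOrder O]

open Classical in
/-- the restriction of `g` to the set `D` -/
noncomputable def rs (D : Set O) (g : Raw O) : Raw O := fun k => if k ∈ D then g k else none

open Classical in
/-- `t` below `β`, `a` from `β` on -/
noncomputable def gl (β : O) (t a : Raw O) : Raw O := fun k => if k < β then t k else a k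

/-- the order -/
def lr (dec : O → O → Code O) (g h : Raw O) : Prop :=
  ∀ j l b, h j = some (l, b) → ∃ a, g j = some (l, a) ∧ (dec j l).R (rs (Set.Iio j) g) a b

/-- Easton support; `B j` is a bound for the labels and the elements at `j` -/
structure Adm (B : O → O) (g : Raw O) : Prop where
  ina : ∀ j l a, g j = some (l, a) → Ina j ∧ l < B j ∧ a < B j
  eas : ∀ i, Ina i → ∃ b < i, ∀ j, g j ≠ none → j < i → j < b
  bd : ∃ b, ∀ j, g j ≠ none → j < b

variable [WellFoundedLT O] (dec : O → O → Code O) (B : O → O)

/-- the blocks over a set `D` of conditions -/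
def BlkAt (D : Set (Raw O)) (c : Code O) (μ : Cardinal.{u}) : Prop :=
  IsBlk (P := ↥D) (Z := ↥c.Z) (fun g h => lr dec g.1 h.1) (fun t a b => c.R t.1 a.1 b.1)
    (fun a b => c.X a.1 b.1) μ

/-- goodness of the label `l` at `j`, from goodness below `j` -/
def GdF (j : O) (ih : ∀ k, k < j → O → Prop) (l : O) : Prop :=
  BlkAt dec {g | Adm B g ∧ ∀ k m a, g k = some (m, a) → ∃ hk : k < j, ih k hk m ∧ a ∈ (dec k m).Z}
    (dec j l) (mu #(Set.Iio j))

/-- the label `l` is good at `j` -/
noncomputable def Gd : O → O → Prop :=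
  (wellFounded_lt : WellFounded ((· < ·) : O → O → Prop)).fix (GdF dec B)

/-- the conditions of the preparation -/
def Pk : Set (Raw O) :=
  {g | Adm B g ∧ ∀ k m a, g k = some (m, a) → Gd dec B k m ∧ a ∈ (dec k m).Z}

/-- the conditions with support below `β` -/
def Lo (β : O) : Set (Raw O) := {g | g ∈ Pk dec B ∧ ∀ k, g k ≠ none → k < β}

/-- the conditions with support above `β` (inclusive) -/
def Hi (β : O) : Set (Raw O) := {g | g ∈ Pk dec B ∧ ∀ k, g k ≠ none → β ≤ k}

theorem Gd_iff (j l : O) :
    Gd dec B j l ↔ BlkAt dec (Lo dec B j) (dec j l) (mu #(Set.Iio j)) := by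
  have e0 : Gd dec B j l = GdF dec B j (fun k _ => Gd dec B k) l := by
    unfold Gd
    rw [WellFounded.fix_eq]
  have e : {g : Raw O | Adm B g ∧ ∀ k m a, g k = some (m, a) → ∃ _ : k < j,
      Gd dec B k m ∧ a ∈ (dec k m).Z} = Lo dec B j := by
    ext g
    constructor
    · rintro ⟨h1, h2⟩
      refine ⟨⟨h1, fun k m a hk => ?_⟩, fun k hk => ?_⟩
      · obtain ⟨_, h3, h4⟩ := h2 k m a hk
        exact ⟨h3, h4⟩
      · cases hgk : g k with
        | none => exact absurd hgk hk
        | some x => exact (h2 k x.1 x.2 hgk).1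
    · rintro ⟨⟨h1, h2⟩, h3⟩
      refine ⟨h1, fun k m a hk => ⟨h3 k (by rw [hk]; simp), ?_⟩⟩
      exact h2 k m a hk
  rw [e0]
  unfold GdF
  rw [e]

/-- every block over the conditions with support below an inaccessible `j` is the decoding of a label -/
structure DecH : Prop where
  cod : ∀ j, Ina j → ∀ (Z : Type u) (R : ↥(Lo dec B j) → Z → Z → Prop) (X : Z → Z → Prop),
    #Z ≤ Order.succ (Order.succ (mu #(Set.Iio j))) →
    ∃ l < B j, ∃ z : Z ≃ ↥(dec j l).Z,
      (∀ t a b, (dec j l).R t.1 (z a).1 (z b).1 ↔ R t a b) ∧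
      ∀ a b, (dec j l).X (z a).1 (z b).1 ↔ X a b
  zb : ∀ j l, (dec j l).Z ⊆ Set.Iio (B j)
  bi : ∀ j i, j < i → Ina i → B j < i

/-- the order on the conditions below `β` -/
def lL (β : O) (s t : ↥(Lo dec B β)) : Prop := lr dec s.1 t.1

/-- `t` forces `a ≤ b`, for tails `a`, `b` -/
def RT (β : O) (t : ↥(Lo dec B β)) (a b : ↥(Hi dec B β)) : Prop :=
  lr dec (gl β t.1 a.1) (gl β t.1 b.1)

/-- direct extension of tails -/
def XT (β : O) (a b : ↥(Hi dec B β)) : Prop :=
  ∀ k l c, b.1 k = some (l, c) → ∃ c', a.1 k = some (l, c') ∧ (dec k l).X c' c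

/-- the order of the preparation -/
def lP (g h : ↥(Pk dec B)) : Prop := lr dec g.1 h.1

end

end Pool.Agent.UPrep
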