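import Pool.Agent.Lib.UPrep.Ord
import Pool.Agent.Lib.UPrep.Cnt

/-!
# Lab: labels of blocks
-/

set_option autoImplicit false
universe u

namespace Pool.Agent.UPrep

open Cardinal Pool.Agent.PolF Pool.Agent.UlM

variable {O : Type u} [LinearOrder O] [WellFoundedLT O] {dec : O → O → Code O} {B : O → O}

/-- every block over the conditions below `j` has a good label -/
theorem lab (D : DecH dec B) {j : O} (hj : Ina j) {Z : Type u}
    {R : ↥(Lo dec B j) → Z → Z → Prop} {X : Z → Z → Prop}
    (h : IsBlk (lL dec B j) R X (mu #(Set.Iio j))) :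
    ∃ l < B j, Gd dec B j l ∧ ∃ z : Z ≃ ↥(dec j l).Z,
      (∀ t a b, (dec j l).R t.1 (z a).1 (z b).1 ↔ R t a b) ∧
      ∀ a b, (dec j l).X (z a).1 (z b).1 ↔ X a b := by
  obtain ⟨l, hl, z, h1, h2⟩ := D.cod j hj Z R X h.size
  refine ⟨l, hl, ?_, z, h1, h2⟩
  rw [Gd_iff]
  exact IsBlk.equiv (Equiv.refl _) z (fun a b => Iff.rfl) (fun t a b => h1 t a b)
    (fun a b => h2 a b) h

/-- there is a good label with a nonempty block -/
theorem triv_lab (D : DecH dec B) {j : O} (hj : Ina j) :
    ∃ l < B j, Gd dec B j l ∧ ∃ a, a ∈ (dec j l).Z := by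
  have hb : IsBlk (lL dec B j) (fun (_ : ↥(Lo dec B j)) (_ _ : PUnit.{u + 1}) => True)
      (fun _ _ => True) (mu #(Set.Iio j)) := by
    refine ⟨?_, ?_, ?_, ?_, ?_, ?_, ?_, ?_, ?_, ?_, ?_⟩
    · intros; trivial
    · intros; trivial
    · intros; trivial
    · intros; trivial
    · intros; trivial
    · intros; trivial
    · intros; trivial
    · intro C _ _ _; exact ⟨PUnit.unit, fun _ _ => trivial⟩
    · intro t a b _; exact ⟨PUnit.unit, trivial, trivial, trivial⟩
    · intro S _
      have h1 : #(↥(Lo dec B j) × PUnit.{u + 1}) ≤ mu #(Set.Iio j) := by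
        rw [Cardinal.mk_prod]
        simp only [Cardinal.mk_fintype, Fintype.card_punit, Nat.cast_one, Cardinal.lift_one,
          mul_one, Cardinal.lift_id]
        exact (lo_card D hj).trans (le_mu _)
      exact (Cardinal.mk_set_le S).trans (h1.trans (Order.le_succ _))
    · simp only [Cardinal.mk_fintype, Fintype.card_punit, Nat.cast_one]
      have h1 : (1 : Cardinal.{u}) ≤ mu #(Set.Iio j) :=
        (Cardinal.one_lt_aleph0.le.trans hj.1.aleph0_lt.le).trans (le_mu _)
      exact h1.trans ((Order.le_succ _).trans (Order.le_succ _))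
  obtain ⟨l, hl, h1, z, -, -⟩ := lab D hj hb
  exact ⟨l, hl, h1, (z PUnit.unit).1, (z PUnit.unit).2⟩

end Pool.Agent.UPrep
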