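import Pool.Agent.Lib.UPrep.Rlo
import Pool.Agent.Lib.UPrep.Lab

/-!
# GchB: GCH below the preparation, successor case

`j` is inaccessible and `j'` is its successor in `O`: `Lo j'` is `Lo j` followed by a block.

PROOF. Step 1: there are `t₁ ≤ t` in `Lo j'` and `l`, `a₁` with `t₁ j = some (l, a₁)`: if `t j` is defined take `t₁ = t`; if `t j = none` take `l`, `a₁` from
`triv_lab` and let `t₁` be `t` with the value `some (l, a₁)` at `j` (in `Pk`: `Adm`: `l < B j`, `a₁ < B j` by `D.zb`; `eas i` for `j < i`: the maximum of the bound and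
`j'`, `j' < i` by `ina_lim`; `bd`: `j'`... the support is below `j'`). `lr t₁ t`: the clauses of `t` are at `k < j`, the same values, `refl` of the
blocks (`lr_refl`, `rs (Iio k) t₁ = rs (Iio k) t`).
Step 2: `G = {g : ↥(Lo j') | ∃ a, g j = some (l, a)}` is closed under stronger conditions; `Gd j l` (from `t₁ ∈ Pk`), so by `Gd_iff` `BlkAt dec (Lo j) (dec j l) (mu #(Iio j))`,
i.e. `IsBlk (lL j) R X (mu #(Iio j))` for the set `Z = ↥(dec j l).Z`. The map `g ↦ (rs (Iio j) g, a)` is an isomorphism of `G` (with `leD (lL j') G`) with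
`↥(Lo j) × Z` (with `le2 (lL j) R`); inverse: `(t, a) ↦ t` with the value `some (l, a)` at `j` (as in step 1); the order: the clauses at `k < j` are those of the
restrictions, the clause at `j` is `R (rs (Iio j) g) a' a`. Step 3: `gch_blk` (`#(Lo j) ≤ #(Iio j) ≤ mu`, `≤ #I`; `ℵ₀ ≤ mu`) at the image of `t₁`, `gch_iso`, `gch_dc`
give `FGchAt (lL j') I t₁`, and `FGchAt` at `t₁ ≤ t` gives `FGchAt` at `t` (transitivity).
-/

set_option autoImplicit false
universe u

namespace Pool.Agent.UPrep

open Cardinal Pool.Agent.PolF Pool.Agent.UlM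

variable {O : Type u} [LinearOrder O] [WellFoundedLT O] {dec : O → O → Code O} {B : O → O}

omit [LinearOrder O] [WellFoundedLT O] in
private theorem gb_rs_some {D : Set O} {k : O} {g : Raw O} {x : O × O} (h : rs D g k = some x) :
    k ∈ D ∧ g k = some x := by
  unfold rs at h
  by_cases hk : k ∈ D
  · rw [if_pos hk] at h
    exact ⟨hk, h⟩
  · rw [if_neg hk] at h
    exact absurd h (by simp)

omit [LinearOrder O] [WellFoundedLT O] in
private theorem gb_rs_mem {D : Set O} {k : O} (h : k ∈ D) (g : Raw O) : rs D g k = g k := by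
  simp [rs, h]

omit [LinearOrder O] [WellFoundedLT O] in
private theorem gb_rs_nmem {D : Set O} {k : O} (h : k ∉ D) (g : Raw O) : rs D g k = none := by
  simp [rs, h]

/-- a condition with support below `j`, with a value at `j` -/
private theorem gb_up (D : DecH dec B) {j j' : O} (hj : Ina j) (hj' : ∀ k, k < j' ↔ k ≤ j)
    {s : Raw O} (hs : s ∈ Lo dec B j) {l a : O} (hl : Gd dec B j l) (hlB : l < B j)
    (ha : a ∈ (dec j l).Z) : Function.update s j (some (l, a)) ∈ Lo dec B j' := by
  have hne : ∀ k, Function.update s j (some (l, a)) k ≠ none → k = j ∨ s k ≠ none := by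
    intro k hk
    by_cases h : k = j
    · exact Or.inl h
    · right
      rwa [Function.update_of_ne h] at hk
  have hsup : ∀ k, Function.update s j (some (l, a)) k ≠ none → k < j' := by
    intro k hk
    rw [hj']
    rcases hne k hk with rfl | h
    · exact le_rfl
    · exact (hs.2 k h).le
  refine ⟨⟨⟨?_, ?_, ⟨j', hsup⟩⟩, ?_⟩, hsup⟩
  · intro k m c hk
    by_cases h : k = j
    · subst h
      rw [Function.update_self] at hk
      obtain ⟨rfl, rfl⟩ : l = m ∧ a = c := by simpa using hk
      exact ⟨hj, hlB, D.zb _ _ ha⟩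
    · rw [Function.update_of_ne h] at hk
      exact hs.1.1.ina k m c hk
  · intro i hi
    obtain ⟨b, hb, h1⟩ := hs.1.1.eas i hi
    by_cases hji : j < i
    · obtain ⟨k, hk1, hk2⟩ := (ina_lim hi).2 j hji
      refine ⟨max b k, max_lt hb hk2, fun m hm hmi => ?_⟩
      rcases hne m hm with rfl | h
      · exact lt_max_of_lt_right hk1
      · exact lt_max_of_lt_left (h1 m h hmi)
    · refine ⟨b, hb, fun m hm hmi => ?_⟩
      rcases hne m hm with rfl | h
      · exact absurd hmi hji
      · exact h1 m h hmi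
  · intro k m c hk
    by_cases h : k = j
    · subst h
      rw [Function.update_self] at hk
      obtain ⟨rfl, rfl⟩ : l = m ∧ a = c := by simpa using hk
      exact ⟨hl, ha⟩
    · rw [Function.update_of_ne h] at hk
      exact hs.1.2 k m c hk

private theorem gb_gt {j j' : O} (hj' : ∀ k, k < j' ↔ k ≤ j) {g : Raw O}
    (hg : g ∈ Lo dec B j') {k : O} (hk : j < k) : g k = none := by
  by_contra h
  exact absurd ((hj' k).1 (hg.2 k h)) (not_le.2 hk)

theorem gch_succ (hG : ∀ c : Cardinal.{u}, ℵ₀ ≤ c → (2 : Cardinal.{u}) ^ c = Order.succ c)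
    (D : DecH dec B) {j j' : O} (hj : Ina j) (hj' : ∀ k, k < j' ↔ k ≤ j) {I : Type u}
    (hI : Infinite I) (h : #(Set.Iio j) ≤ #I) (t : ↥(Lo dec B j')) :
    FGchAt (lL dec B j') I t := by
  -- step 1
  obtain ⟨t1, ht1, l, a1, h1⟩ : ∃ t1 : ↥(Lo dec B j'), lL dec B j' t1 t ∧
      ∃ l a1, t1.1 j = some (l, a1) := by
    cases htj : t.1 j with
    | some x => exact ⟨t, lL_refl j' t, x.1, x.2, htj⟩
    | none =>
      obtain ⟨l, hlB, hl, a, ha⟩ := triv_lab D hj
      have ht : rs (Set.Iio j) t.1 ∈ Lo dec B j := rs_lo t.2.1 j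
      have hu := gb_up D hj hj' ht hl hlB ha
      refine ⟨⟨_, hu⟩, ?_, l, a, Function.update_self ..⟩
      intro k m b hk
      refine lr_refl hu.1 k m b ?_
      have hkj : k ≠ j := by
        rintro rfl
        rw [htj] at hk
        exact absurd hk (by simp)
      rw [Function.update_of_ne hkj]
      have hk' : k ∈ Set.Iio j := by
        refine lt_of_le_of_ne ((hj' k).1 (t.2.2 k (by rw [hk]; simp))) hkj
      rw [gb_rs_mem hk']
      exact hk
  -- step 2
  have hgl : Gd dec B j l := (t1.2.1.2 j l a1 h1).1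
  have hlB : l < B j := (t1.2.1.1.ina j l a1 h1).2.1
  have hblk : BlkAt dec (Lo dec B j) (dec j l) (mu #(Set.Iio j)) := (Gd_iff dec B j l).1 hgl
  let G : Set ↥(Lo dec B j') := {g | ∃ a, g.1 j = some (l, a)}
  have hGd : ∀ p ∈ G, ∀ q, lL dec B j' q p → q ∈ G := by
    rintro p ⟨a, ha⟩ q hq
    obtain ⟨a', ha', -⟩ := hq j l a ha
    exact ⟨a', ha'⟩
  have hZ : ∀ g : ↥G, Classical.choose g.2 ∈ (dec j l).Z := fun g =>
    (g.1.2.1.2 j l _ (Classical.choose_spec g.2)).2
  let e : ↥G ≃ ↥(Lo dec B j) × ↥(dec j l).Z :=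
    { toFun := fun g => (⟨rs (Set.Iio j) g.1.1, rs_lo g.1.2.1 j⟩, ⟨Classical.choose g.2, hZ g⟩)
      invFun := fun z => ⟨⟨Function.update z.1.1 j (some (l, z.2.1)),
        gb_up D hj hj' z.1.2 hgl hlB z.2.2⟩, z.2.1, Function.update_self ..⟩
      left_inv := by
        intro g
        apply Subtype.ext
        apply Subtype.ext
        funext k
        change Function.update (rs (Set.Iio j) g.1.1) j (some (l, Classical.choose g.2)) k = g.1.1 k
        rcases lt_trichotomy k j with hk | hk | hk
        · rw [Function.update_of_ne hk.ne, gb_rs_mem (show k ∈ Set.Iio j from hk)]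
        · subst hk
          rw [Function.update_self]
          exact (Classical.choose_spec g.2).symm
        · rw [Function.update_of_ne hk.ne', gb_rs_nmem (show k ∉ Set.Iio j from not_lt.2 hk.le)]
          exact (gb_gt hj' g.1.2 hk).symm
      right_inv := by
        rintro ⟨s, z⟩
        have h2 : ∀ (g : ↥G), g.1.1 j = some (l, z.1) → Classical.choose g.2 = z.1 := by
          intro g hg
          have h3 := Classical.choose_spec g.2
          simpa using h3.symm.trans hg
        refine Prod.ext (Subtype.ext ?_) (Subtype.ext (h2 _ (Function.update_self ..)))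
        change rs (Set.Iio j) (Function.update s.1 j (some (l, z.1))) = s.1
        funext k
        by_cases hk : k < j
        · rw [gb_rs_mem (show k ∈ Set.Iio j from hk), Function.update_of_ne hk.ne]
        · rw [gb_rs_nmem (show k ∉ Set.Iio j from hk)]
          by_contra h3
          exact hk (s.2.2 k (Ne.symm h3)) }
  have he : ∀ g h : ↥G, le2 (lL dec B j) (fun t a b => (dec j l).R t.1 a.1 b.1) (e g) (e h) ↔
      leD (lL dec B j') G g h := by
    intro g h
    have hg := Classical.choose_spec g.2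
    have hh := Classical.choose_spec h.2
    constructor
    · rintro ⟨h2, h3⟩ k m b hk
      rcases lt_trichotomy k j with hkj | hkj | hkj
      · obtain ⟨a, ha, hR⟩ := h2 k m b (show rs (Set.Iio j) h.1.1 k = some (m, b) by
          rw [gb_rs_mem (show k ∈ Set.Iio j from hkj)]
          exact hk)
        refine ⟨a, (gb_rs_some ha).2, ?_⟩
        have hR' : (dec k m).R (rs (Set.Iio k) (rs (Set.Iio j) g.1.1)) a b := hR
        rw [rs_Iio_rs hkj.le] at hR'
        exact hR'
      · subst hkj
        rw [hh] at hk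
        obtain ⟨h4, h5⟩ : l = m ∧ Classical.choose h.2 = b := by simpa using hk
        subst h4
        refine ⟨Classical.choose g.2, hg, ?_⟩
        rw [← h5]
        exact h3
      · rw [gb_gt hj' h.1.2 hkj] at hk
        exact absurd hk (by simp)
    · intro h2
      refine ⟨lr_rs j h2, ?_⟩
      obtain ⟨a, ha, hR⟩ := h2 j l _ hh
      have h3 : Classical.choose g.2 = a := by
        simpa using hg.symm.trans ha
      change (dec j l).R (rs (Set.Iio j) g.1.1) (Classical.choose g.2) (Classical.choose h.2)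
      rw [h3]
      exact hR
  -- step 3
  have hk1 : FGchAt (le2 (lL dec B j) (fun (t : ↥(Lo dec B j)) (a b : ↥(dec j l).Z) =>
      (dec j l).R t.1 a.1 b.1)) I (e ⟨t1, a1, h1⟩) :=
    gch_blk (lL_refl j) (lL_trans j) hblk (hj.1.aleph0_lt.le.trans (le_mu _))
      ((lo_card D hj).trans (le_mu _)) hG hI ((lo_card D hj).trans h) _
  have hlr : ∀ p : ↥G, leD (lL dec B j') G p p := fun p => lL_refl j' p.1
  have hlt : ∀ p q r : ↥G, leD (lL dec B j') G p q → leD (lL dec B j') G q r →
      leD (lL dec B j') G p r := fun p q r => lL_trans j' p.1 q.1 r.1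
  have hk2 : FGchAt (leD (lL dec B j') G) I ⟨t1, a1, h1⟩ := gch_iso hlr hlt e he _ hk1
  have hk3 : FGchAt (lL dec B j') I t1 := gch_dc (lL_refl j') (lL_trans j') hGd ⟨t1, a1, h1⟩ hk2
  obtain ⟨q, hq, J, g, hJ, hg⟩ := hk3
  exact ⟨q, lL_trans j' _ _ _ hq ht1, J, g, hJ, hg⟩

end Pool.Agent.UPrep
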