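import Pool.Agent.Lib.UPrep.Rs

/-!
# Ord: the order of the preparation is a preorder; order and glueing

PROOF. `blk_at`: `(Gd_iff ..).1 (hg.2 j l a h).1`. `lr_refl`: let `g j = some (l, b)`; `refl` of the block at the condition
`⟨rs (Iio j) g, rs_lo hg j⟩` and the element `⟨b, _⟩`. `lr_rs`: for `j < β` `rs (Iio j) (rs (Iio β) g) = rs (Iio j) g` (`rs_Iio_rs`).
`lr_trans`: let `h j = some (l, c)`: there are `b` with `g j = some (l, b)`, `R (rs (Iio j) g) b c` and `a` with `f j = some (l, a)`,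
`R (rs (Iio j) f) a b`; `down` with `lr (rs (Iio j) f) (rs (Iio j) g)` (`lr_rs`) gives `R (rs (Iio j) f) b c`; `trans`. `lr_dn`: for
`j < β` use the hypothesis (`rs_Iio_gl`); for `j ≥ β` the value is the same and `refl` of the block. `lr_gl`: (→) restrict to `Iio β` (`lr_rs`,
`rs_gl_lo`); second part: for `j < β` `lr_refl` of `t`, for `j ≥ β` the same clause (`gl β t' a'` and `gl β t a'` agree at
`j ≥ β`). (←) for `j < β` by the first part, for `j ≥ β` by the second.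
-/

set_option autoImplicit false
universe u

namespace Pool.Agent.UPrep

open Cardinal Pool.Agent.PolF Pool.Agent.UlM

variable {O : Type u} [LinearOrder O] [WellFoundedLT O] {dec : O → O → Code O} {B : O → O}

theorem blk_at {g : Raw O} (hg : g ∈ Pk dec B) {j l a : O} (h : g j = some (l, a)) :
    BlkAt dec (Lo dec B j) (dec j l) (mu #(Set.Iio j)) ∧ a ∈ (dec j l).Z :=
  ⟨(Gd_iff dec B j l).1 (hg.2 j l a h).1, (hg.2 j l a h).2⟩

private theorem gl_lt {β k : O} (h : k < β) (t a : Raw O) : gl β t a k = t k := by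
  simp [gl, h]

private theorem gl_ge {β k : O} (h : ¬ k < β) (t a : Raw O) : gl β t a k = a k := by
  simp [gl, h]

private theorem rs_some {D : Set O} {k : O} {g : Raw O} {x : O × O} (h : rs D g k = some x) :
    k ∈ D ∧ g k = some x := by
  unfold rs at h
  by_cases hk : k ∈ D
  · rw [if_pos hk] at h
    exact ⟨hk, h⟩
  · rw [if_neg hk] at h
    exact absurd h (by simp)

private theorem rs_mem {D : Set O} {k : O} (h : k ∈ D) (g : Raw O) : rs D g k = g k := by
  simp [rs, h]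

theorem lr_refl {g : Raw O} (hg : g ∈ Pk dec B) : lr dec g g := by
  intro j l b h
  obtain ⟨hB, hb⟩ := blk_at hg h
  exact ⟨b, h, hB.refl ⟨rs (Set.Iio j) g, rs_lo hg j⟩ ⟨b, hb⟩⟩

theorem lr_rs {g h : Raw O} (β : O) (h1 : lr dec g h) :
    lr dec (rs (Set.Iio β) g) (rs (Set.Iio β) h) := by
  intro j l b hb
  obtain ⟨hj, hb'⟩ := rs_some hb
  obtain ⟨a, ha, hR⟩ := h1 j l b hb'
  refine ⟨a, by rw [rs_mem hj]; exact ha, ?_⟩
  rw [rs_Iio_rs (le_of_lt hj)]
  exact hR

theorem lr_trans {f g h : Raw O} (hf : f ∈ Pk dec B) (hg : g ∈ Pk dec B) (hh : h ∈ Pk dec B)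
    (h1 : lr dec f g) (h2 : lr dec g h) : lr dec f h := by
  intro j l c hc
  obtain ⟨b, hb, hR1⟩ := h2 j l c hc
  obtain ⟨a, ha, hR2⟩ := h1 j l b hb
  obtain ⟨hB, haZ⟩ := blk_at hf ha
  obtain ⟨_, hbZ⟩ := blk_at hg hb
  obtain ⟨_, hcZ⟩ := blk_at hh hc
  refine ⟨a, ha, ?_⟩
  have h3 := hB.down ⟨rs (Set.Iio j) g, rs_lo hg j⟩ ⟨rs (Set.Iio j) f, rs_lo hf j⟩
    ⟨b, hbZ⟩ ⟨c, hcZ⟩ (lr_rs j h1) hR1
  exact hB.trans ⟨rs (Set.Iio j) f, rs_lo hf j⟩ ⟨a, haZ⟩ ⟨b, hbZ⟩ ⟨c, hcZ⟩ hR2 h3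

theorem lr_dn {β : O} {t t' a : Raw O} (ht : t ∈ Lo dec B β) (ht' : t' ∈ Lo dec B β)
    (ha : a ∈ Hi dec B β) (h : lr dec t t') : lr dec (gl β t a) (gl β t' a) := by
  intro j l b hb
  by_cases hj : j < β
  · rw [gl_lt hj] at hb
    obtain ⟨c, hc, hR⟩ := h j l b hb
    refine ⟨c, by rw [gl_lt hj]; exact hc, ?_⟩
    rw [rs_Iio_gl hj.le]
    exact hR
  · refine lr_refl (gl_pk ht ha) j l b ?_
    rw [gl_ge hj] at hb ⊢
    exact hb

theorem lr_gl {β : O} {t t' a a' : Raw O} (ht : t ∈ Lo dec B β) (ht' : t' ∈ Lo dec B β)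
    (ha : a ∈ Hi dec B β) (ha' : a' ∈ Hi dec B β) :
    lr dec (gl β t a) (gl β t' a') ↔ lr dec t t' ∧ lr dec (gl β t a) (gl β t a') := by
  constructor
  · intro h
    constructor
    · have h1 := lr_rs β h
      rw [rs_gl_lo ht, rs_gl_lo ht'] at h1
      exact h1
    · intro j l b hb
      by_cases hj : j < β
      · refine lr_refl (gl_pk ht ha) j l b ?_
        rw [gl_lt hj] at hb ⊢
        exact hb
      · refine h j l b ?_
        rw [gl_ge hj] at hb ⊢
        exact hb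
  · rintro ⟨h1, h2⟩ j l b hb
    by_cases hj : j < β
    · rw [gl_lt hj] at hb
      obtain ⟨c, hc, hR⟩ := h1 j l b hb
      refine ⟨c, by rw [gl_lt hj]; exact hc, ?_⟩
      rw [rs_Iio_gl hj.le]
      exact hR
    · refine h2 j l b ?_
      rw [gl_ge hj] at hb ⊢
      exact hb

/-- every condition is stronger than its restrictions to initial segments -/
theorem lr_rs_self {g : Raw O} (hg : g ∈ Pk dec B) (β : O) : lr dec g (rs (Set.Iio β) g) := by
  intro j l b hb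
  exact lr_refl hg j l b (rs_some hb).2

end Pool.Agent.UPrep
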