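import Pool.Agent.Lib.UPrep.Tail
import Pool.Agent.Lib.UPrep.Cnt
import Pool.Agent.Lib.UlM.Gbl

/-!
# Rlo: restriction to `Lo β` is a projection; names of small sets are densely names over `Lo β`

PROOF. `lP_refl`, `lP_trans`: `lr_refl`, `lr_trans`. `prj_lo`: `mono`: `lr_rs`; `lift`: for `q ≤ rs (Iio β) g` take `gl β q (rs (Ici β) g)`
(`gl_pk`, `lr_dn`, `gl_rs`; its restriction is `q`: `rs_gl_lo`). `gl_le`: `le2 (lL β) (RT β) (t', a') (t, a) ↔ lP (gl t' a') (gl t a)` is `lr_gl`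
(`RT β t' a' a` is `lr (gl t' a') (gl t' a)`).
`red_lo`: let `ν = max ℵ₀ (max #Y #(Lo β))`; `ν < #O` (`lo_card_lt_top`, `hY`, `hO.unc`) and for `Ina j`: `j = β` is impossible if `β ≤ j` (`hν`), and `β < j`
gives `ν < #(Iio j)` (`lo_card_lt`, `hν`, `Ina`: `ℵ₀ < #(Iio j)`); so `tail_tl` holds with `ν` (for `j = β`: `hν j hj le_rfl` gives `β < β`). For a name
`c : Y → Set (Pk)` let `ĉ y = {w | ⟨gl β w.1.1 w.2.1, _⟩ ∈ c y}`, a name over `Lo β × Hi β`; `Mem (le2 ..) ĉ y w ↔ Mem lP c y (gl w.1 w.2)` (the map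
`w ↦ gl w.1 w.2` is an isomorphism: `gl_le`, and `gl_rs` for surjectivity). `red_name` for `ĉ` and `b = rs (Ici β) g` gives `a` and `c'`; `g' = gl β (rs (Iio β) g) a`; it is
`≤ g` by `xr`. For `h ≤ g'`: `h = gl β (rs (Iio β) h) (rs (Ici β) h)` and `RT β (rs (Iio β) h) (rs (Ici β) h) a` (`lr_gl` applied to `h ≤ g'`), so
`Mem c y h ↔ Mem ĉ y (rs (Iio β) h, rs (Ici β) h) ↔ Mem c' y (rs (Iio β) h)`.
-/

set_option autoImplicit false
universe u

namespace Pool.Agent.UPrep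

open Cardinal Pool.Agent.PolF Pool.Agent.UlM

variable {O : Type u} [LinearOrder O] [WellFoundedLT O] {dec : O → O → Code O} {B : O → O}

theorem lP_refl (g : ↥(Pk dec B)) : lP dec B g g := lr_refl g.2

theorem lP_trans (f g h : ↥(Pk dec B)) (h1 : lP dec B f g) (h2 : lP dec B g h) : lP dec B f h :=
  lr_trans f.2 g.2 h.2 h1 h2

theorem lL_refl (β : O) (g : ↥(Lo dec B β)) : lL dec B β g g := lr_refl g.2.1

theorem lL_trans (β : O) (f g h : ↥(Lo dec B β)) (h1 : lL dec B β f g) (h2 : lL dec B β g h) :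
    lL dec B β f h := lr_trans f.2.1 g.2.1 h.2.1 h1 h2

/-- the restriction to the coordinates below `β` -/
noncomputable def pLo (β : O) (g : ↥(Pk dec B)) : ↥(Lo dec B β) :=
  ⟨rs (Set.Iio β) g.1, rs_lo g.2 β⟩

/-- the part from `β` on -/
noncomputable def pHi (β : O) (g : ↥(Pk dec B)) : ↥(Hi dec B β) :=
  ⟨rs (Set.Ici β) g.1, rs_hi g.2 β⟩

/-- glueing -/
noncomputable def pGl (β : O) (t : ↥(Lo dec B β)) (a : ↥(Hi dec B β)) : ↥(Pk dec B) :=
  ⟨gl β t.1 a.1, gl_pk t.2 a.2⟩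

theorem pGl_eq (β : O) (g : ↥(Pk dec B)) : pGl β (pLo β g) (pHi β g) = g :=
  Subtype.ext (gl_rs β g.1)

theorem pLo_gl (β : O) (t : ↥(Lo dec B β)) (a : ↥(Hi dec B β)) : pLo β (pGl β t a) = t :=
  Subtype.ext (rs_gl_lo t.2 a.1)

theorem pHi_gl (β : O) (t : ↥(Lo dec B β)) (a : ↥(Hi dec B β)) : pHi β (pGl β t a) = a :=
  Subtype.ext (rs_gl_hi a.2 t.1)

theorem gl_le (β : O) (w v : ↥(Lo dec B β) × ↥(Hi dec B β)) :
    lP dec B (pGl β w.1 w.2) (pGl β v.1 v.2) ↔ le2 (lL dec B β) (RT dec B β) w v := by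
  exact lr_gl w.1.2 v.1.2 w.2.2 v.2.2

theorem prj_lo (β : O) : IsPrj (lP dec B) (lL dec B β) (pLo β) := by
  refine ⟨fun g h h1 => lr_rs β h1, fun g q hq => ⟨pGl β q (pHi β g), ?_, ?_⟩⟩
  · have h1 : lP dec B (pGl β q (pHi β g)) (pGl β (pLo β g) (pHi β g)) :=
      (gl_le β (q, pHi β g) (pLo β g, pHi β g)).2 ⟨hq, lr_refl (gl_pk q.2 (pHi β g).2)⟩
    rwa [pGl_eq] at h1
  · rw [pLo_gl]
    exact lL_refl β q

theorem red_lo (hO : InO O) (D : DecH dec B) (β : O) {Y : Type u} (hY : #Y < #O)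
    (hν : ∀ j, Ina j → β ≤ j → β < j ∧ #Y < #(Set.Iio j)) (c : Y → Set ↥(Pk dec B))
    (g : ↥(Pk dec B)) : ∃ g', lP dec B g' g ∧ pLo β g' = pLo β g ∧
      ∃ c' : Y → Set ↥(Lo dec B β), ∀ h, lP dec B h g' → ∀ y,
        (Mem (lP dec B) c y h ↔ Mem (lL dec B β) c' y (pLo β h)) := by
  have hν0 : ℵ₀ ≤ max ℵ₀ (max #Y #↥(Lo dec B β)) := le_max_left _ _
  have hνY : #Y ≤ max ℵ₀ (max #Y #↥(Lo dec B β)) :=
    (le_max_left _ _).trans (le_max_right _ _)
  have hνL : #↥(Lo dec B β) ≤ max ℵ₀ (max #Y #↥(Lo dec B β)) :=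
    (le_max_right _ _).trans (le_max_right _ _)
  have hνO : max ℵ₀ (max #Y #↥(Lo dec B β)) < #O :=
    max_lt hO.unc (max_lt hY (lo_card_lt_top hO β))
  have hT := tail_tl (ν := max ℵ₀ (max #Y #↥(Lo dec B β))) hO D β hνO (by
    intro j hj
    refine ⟨fun e => ?_, fun hlt => ?_⟩
    · subst e
      exact absurd (hν j hj le_rfl).1 (lt_irrefl _)
    · exact max_lt hj.1.aleph0_lt (max_lt (hν j hj hlt.le).2 (lo_card_lt D hj hlt)))
  have tr := le2_refl (lL_refl (dec := dec) (B := B) β) hT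
  have tt := le2_trans (lL_trans (dec := dec) (B := B) β) hT
  -- the name over the product
  have key : ∀ (y : Y) (w : ↥(Lo dec B β) × ↥(Hi dec B β)),
      Mem (le2 (lL dec B β) (RT dec B β)) (fun y => {w | pGl β w.1 w.2 ∈ c y}) y w ↔
        Mem (lP dec B) c y (pGl β w.1 w.2) := by
    intro y w
    constructor
    · intro hm q hq
      have h1 : le2 (lL dec B β) (RT dec B β) (pLo β q, pHi β q) w := by
        rw [← gl_le]
        change lP dec B (pGl β (pLo β q) (pHi β q)) _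
        rw [pGl_eq]
        exact hq
      obtain ⟨r, hr, a, ha, hra⟩ := hm _ h1
      refine ⟨pGl β r.1 r.2, ?_, pGl β a.1 a.2, ha, (gl_le β r a).2 hra⟩
      have h2 := (gl_le β r (pLo β q, pHi β q)).2 hr
      change lP dec B (pGl β r.1 r.2) (pGl β (pLo β q) (pHi β q)) at h2
      rwa [pGl_eq] at h2
    · intro hm v hv
      obtain ⟨r, hr, a, ha, hra⟩ := hm (pGl β v.1 v.2) ((gl_le β v w).2 hv)
      refine ⟨(pLo β r, pHi β r), ?_, (pLo β a, pHi β a), ?_, ?_⟩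
      · rw [← gl_le]
        change lP dec B (pGl β (pLo β r) (pHi β r)) _
        rw [pGl_eq]
        exact hr
      · change pGl β (pLo β a) (pHi β a) ∈ c y
        rw [pGl_eq]
        exact ha
      · rw [← gl_le]
        change lP dec B (pGl β (pLo β r) (pHi β r)) (pGl β (pLo β a) (pHi β a))
        rw [pGl_eq, pGl_eq]
        exact hra
  obtain ⟨a, hab, c', hc'⟩ := red_name (lL_refl (dec := dec) (B := B) β) (lL_trans β) hT hν0 hνL hνY
    (fun y => {w | pGl β w.1 w.2 ∈ c y}) (pHi β g)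
  refine ⟨pGl β (pLo β g) a, ?_, pLo_gl β _ _, c', fun h hh y => ?_⟩
  · have h1 : lP dec B (pGl β (pLo β g) a) (pGl β (pLo β g) (pHi β g)) :=
      (gl_le β (pLo β g, a) (pLo β g, pHi β g)).2 ⟨lL_refl β _, hT.xr _ _ _ hab⟩
    rwa [pGl_eq] at h1
  · have h1 : le2 (lL dec B β) (RT dec B β) (pLo β h, pHi β h) (pLo β g, a) := by
      rw [← gl_le]
      change lP dec B (pGl β (pLo β h) (pHi β h)) _
      rw [pGl_eq]
      exact hh
    have h2 := hc' y (pLo β h) (pHi β h) h1.2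
    rw [← h2, key]
    change Mem (lP dec B) c y h ↔ Mem (lP dec B) c y (pGl β (pLo β h) (pHi β h))
    rw [pGl_eq]

end Pool.Agent.UPrep
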