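import Pool.Agent.Lib.UPrep.Defs

/-!
# Rs: restriction and glueing of conditions

PROOF. Everything is by unfolding `rs`, `gl` (`funext k`, `split_ifs`) and the definitions of `Adm`, `Pk`, `Lo`, `Hi`. `rs_pk`: the
support of `rs D g` is contained in the support of `g` and the values are the same. `gl_pk`: each value of `gl β t a` is a value
of `t` or of `a`; `eas` for `i`: the maximum of the two bounds; `bd`: the maximum of the two bounds. `gl_rs` etc.: an element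
of `Lo β` is `none` from `β` on, an element of `Hi β` is `none` below `β`. `none_pk`: `eas i` needs an element below `i`:
`#(Iio i)` is not zero by `Ina i` (`ℵ₀ < #(Iio i)`).
-/

set_option autoImplicit false
universe u

namespace Pool.Agent.UPrep

open Cardinal Pool.Agent.PolF Pool.Agent.UlM

variable {O : Type u} [LinearOrder O] [WellFoundedLT O] {dec : O → O → Code O} {B : O → O}

omit [LinearOrder O] [WellFoundedLT O] in
private theorem Rs_some {D : Set O} {g : Raw O} {k : O} {x : O × O} (h : rs D g k = some x) :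
    k ∈ D ∧ g k = some x := by
  unfold rs at h
  split_ifs at h with h1
  exact ⟨h1, h⟩

omit [LinearOrder O] [WellFoundedLT O] in
private theorem Rs_ne {D : Set O} {g : Raw O} {k : O} (h : rs D g k ≠ none) :
    k ∈ D ∧ g k ≠ none := by
  unfold rs at h
  split_ifs at h with h1
  · exact ⟨h1, h⟩
  · exact absurd rfl h

omit [WellFoundedLT O] in
private theorem Rs_gl_some {β : O} {t a : Raw O} {k : O} {x : O × O} (h : gl β t a k = some x) :
    (k < β ∧ t k = some x) ∨ (β ≤ k ∧ a k = some x) := by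
  unfold gl at h
  split_ifs at h with h1
  · exact Or.inl ⟨h1, h⟩
  · exact Or.inr ⟨not_lt.1 h1, h⟩

omit [WellFoundedLT O] in
private theorem Rs_gl_ne {β : O} {t a : Raw O} {k : O} (h : gl β t a k ≠ none) :
    (k < β ∧ t k ≠ none) ∨ (β ≤ k ∧ a k ≠ none) := by
  unfold gl at h
  split_ifs at h with h1
  · exact Or.inl ⟨h1, h⟩
  · exact Or.inr ⟨not_lt.1 h1, h⟩

theorem rs_rs (D E : Set O) (g : Raw O) : rs D (rs E g) = rs (D ∩ E) g := by
  funext k
  unfold rs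
  by_cases h1 : k ∈ D <;> by_cases h2 : k ∈ E <;> simp [h1, h2]

theorem rs_Iio_rs {j β : O} (h : j ≤ β) (g : Raw O) :
    rs (Set.Iio j) (rs (Set.Iio β) g) = rs (Set.Iio j) g := by
  rw [rs_rs, Set.inter_eq_left.2 (Set.Iio_subset_Iio h)]

theorem rs_Iio_gl {j β : O} (h : j ≤ β) (t a : Raw O) :
    rs (Set.Iio j) (gl β t a) = rs (Set.Iio j) t := by
  funext k
  unfold rs gl
  by_cases h1 : k < j
  · simp [h1, h1.trans_le h]
  · simp [h1]

theorem rs_pk {g : Raw O} (hg : g ∈ Pk dec B) (D : Set O) : rs D g ∈ Pk dec B := by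
  obtain ⟨h1, h2⟩ := hg
  refine ⟨⟨fun j l a h => h1.ina j l a (Rs_some h).2, fun i hi => ?_, ?_⟩,
    fun k m a h => h2 k m a (Rs_some h).2⟩
  · obtain ⟨b, hb, h3⟩ := h1.eas i hi
    exact ⟨b, hb, fun j hj => h3 j (Rs_ne hj).2⟩
  · obtain ⟨b, h3⟩ := h1.bd
    exact ⟨b, fun j hj => h3 j (Rs_ne hj).2⟩

theorem rs_lo {g : Raw O} (hg : g ∈ Pk dec B) (β : O) : rs (Set.Iio β) g ∈ Lo dec B β :=
  ⟨rs_pk hg _, fun _ hk => (Rs_ne hk).1⟩

theorem rs_hi {g : Raw O} (hg : g ∈ Pk dec B) (β : O) : rs (Set.Ici β) g ∈ Hi dec B β :=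
  ⟨rs_pk hg _, fun _ hk => (Rs_ne hk).1⟩

theorem gl_pk {β : O} {t a : Raw O} (ht : t ∈ Lo dec B β) (ha : a ∈ Hi dec B β) :
    gl β t a ∈ Pk dec B := by
  obtain ⟨⟨h1, h2⟩, -⟩ := ht
  obtain ⟨⟨h3, h4⟩, -⟩ := ha
  refine ⟨⟨fun j l c h => ?_, fun i hi => ?_, ?_⟩, fun k m c h => ?_⟩
  · rcases Rs_gl_some h with ⟨-, h5⟩ | ⟨-, h5⟩
    · exact h1.ina j l c h5
    · exact h3.ina j l c h5
  · obtain ⟨b, hb, h5⟩ := h1.eas i hi
    obtain ⟨b', hb', h6⟩ := h3.eas i hi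
    refine ⟨max b b', max_lt hb hb', fun j hj hji => ?_⟩
    rcases Rs_gl_ne hj with ⟨-, h7⟩ | ⟨-, h7⟩
    · exact lt_max_of_lt_left (h5 j h7 hji)
    · exact lt_max_of_lt_right (h6 j h7 hji)
  · obtain ⟨b, h5⟩ := h1.bd
    obtain ⟨b', h6⟩ := h3.bd
    refine ⟨max b b', fun j hj => ?_⟩
    rcases Rs_gl_ne hj with ⟨-, h7⟩ | ⟨-, h7⟩
    · exact lt_max_of_lt_left (h5 j h7)
    · exact lt_max_of_lt_right (h6 j h7)
  · rcases Rs_gl_some h with ⟨-, h5⟩ | ⟨-, h5⟩
    · exact h2 k m c h5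
    · exact h4 k m c h5

theorem gl_lo {β γ : O} (h : β ≤ γ) {t a : Raw O} (ht : t ∈ Lo dec B β) (ha : a ∈ Hi dec B β)
    (ha' : a ∈ Lo dec B γ) : gl β t a ∈ Lo dec B γ := by
  refine ⟨gl_pk ht ha, fun k hk => ?_⟩
  rcases Rs_gl_ne hk with ⟨h5, -⟩ | ⟨-, h5⟩
  · exact h5.trans_le h
  · exact ha'.2 k h5

theorem gl_rs (β : O) (g : Raw O) : gl β (rs (Set.Iio β) g) (rs (Set.Ici β) g) = g := by
  funext k
  unfold gl rs
  by_cases h1 : k < β
  · simp [h1]
  · simp [h1, not_lt.1 h1]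

theorem rs_of_lo {β : O} {t : Raw O} (ht : t ∈ Lo dec B β) : rs (Set.Iio β) t = t := by
  funext k
  unfold rs
  by_cases h1 : k < β
  · simp [h1]
  · have h2 : t k = none := by
      by_contra h3
      exact h1 (ht.2 k h3)
    simp [h1, h2]

theorem rs_gl_lo {β : O} {t : Raw O} (ht : t ∈ Lo dec B β) (a : Raw O) :
    rs (Set.Iio β) (gl β t a) = t := by
  rw [rs_Iio_gl le_rfl, rs_of_lo ht]

theorem rs_gl_hi {β : O} {a : Raw O} (ha : a ∈ Hi dec B β) (t : Raw O) :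
    rs (Set.Ici β) (gl β t a) = a := by
  funext k
  unfold rs gl
  by_cases h1 : β ≤ k
  · simp [h1, not_lt.2 h1]
  · have h2 : a k = none := by
      by_contra h3
      exact h1 (ha.2 k h3)
    simp [h1, h2]

theorem lo_mono {β γ : O} (h : β ≤ γ) : Lo dec B β ⊆ Lo dec B γ :=
  fun _ hg => ⟨hg.1, fun k hk => (hg.2 k hk).trans_le h⟩

theorem none_pk [Nonempty O] : (fun _ => none : Raw O) ∈ Pk dec B := by
  refine ⟨⟨fun j l a h => by simp at h, fun i hi => ?_, ?_⟩, fun k m a h => by simp at h⟩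
  · have h1 : #(Set.Iio i) ≠ 0 := (aleph0_pos.trans hi.1.aleph0_lt).ne'
    rw [Cardinal.mk_ne_zero_iff] at h1
    obtain ⟨b⟩ := h1
    exact ⟨b.1, b.2, fun j hj => absurd rfl hj⟩
  · exact ⟨Classical.arbitrary O, fun j hj => absurd rfl hj⟩

end Pool.Agent.UPrep
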