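import Pool.Agent.Lib.UPrep.Ord

/-!
# TlB: tails, locality

PROOF. Let `b k = some (l, c)` with `k ≥ β` (for `k < β` the clause is `lr_refl` of `t`). Take any `t''` given by `h` for `t' = t`
(`lr_refl`): `RT t'' a b` gives `c'` with `a k = some (l, c')`. It remains to prove `R (rs (Iio k) (gl β t a)) c' c`: by `loc` of the block
at `k` (`blk_at` for `gl β t a`): let `s ∈ Lo k` with `s ≤ rs (Iio k) (gl β t a)`. `t' = rs (Iio β) s ≤ t` (`lr_rs`, `rs_Iio_rs`,
`rs_Iio_gl`, `rs_of_lo`; `β ≤ k`). Let `t''` be given by `h` for `t'`. Put `s' = gl β t'' (rs (Ici β) s) ∈ Lo k` (`gl_lo`, `rs_hi`). Then `s' ≤ s`: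
`s = gl β (rs (Iio β) s) (rs (Ici β) s)` (`gl_rs`) and `lr_dn`. And `s' ≤ rs (Iio k) (gl β t'' a)`: for a coordinate `m < β` the value is
that of `t''` (`lr_refl` of `t''`, `rs_Iio_gl`); for `β ≤ m < k` the clause for `s ≤ rs (Iio k) (gl β t a)` gives
`R (rs (Iio m) s) (s m) (a m)`, and `down` for `rs (Iio m) s' ≤ rs (Iio m) s`. Finally `RT t'' a b` gives
`R (rs (Iio k) (gl β t'' a)) c' c`, and `down` gives it at `s'`.
-/

set_option autoImplicit false
universe u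

namespace Pool.Agent.UPrep

open Cardinal Pool.Agent.PolF Pool.Agent.UlM

variable {O : Type u} [LinearOrder O] [WellFoundedLT O] {dec : O → O → Code O} {B : O → O}

theorem tl_loc (β : O) (t : ↥(Lo dec B β)) (a b : ↥(Hi dec B β))
    (h : ∀ t', lL dec B β t' t → ∃ t'', lL dec B β t'' t' ∧ RT dec B β t'' a b) :
    RT dec B β t a b := by
  intro k l c hk
  by_cases hkb : k < β
  · have e1 : gl β t.1 b.1 k = t.1 k := by simp [gl, hkb]
    have e2 : gl β t.1 a.1 k = t.1 k := by simp [gl, hkb]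
    rw [e1] at hk
    rw [e2, rs_Iio_gl hkb.le]
    obtain ⟨a', ha', hR⟩ := lr_refl t.2.1 k l c hk
    exact ⟨a', ha', hR⟩
  · have hβk : β ≤ k := not_lt.1 hkb
    have eg : ∀ (u v : Raw O), gl β u v k = v k := fun u v => by simp [gl, hkb]
    rw [eg] at hk
    obtain ⟨t0, _, h0⟩ := h t (lr_refl t.2.1)
    obtain ⟨c', hc', _⟩ := h0 k l c (by rw [eg]; exact hk)
    rw [eg] at hc'
    have hg : gl β t.1 a.1 ∈ Pk dec B := gl_pk t.2 a.2
    have hgk : gl β t.1 a.1 k = some (l, c') := by rw [eg]; exact hc'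
    obtain ⟨hb, hcz'⟩ := blk_at hg hgk
    have hcz := (blk_at b.2.1 hk).2
    refine ⟨c', hgk, hb.loc ⟨_, rs_lo hg k⟩ ⟨c', hcz'⟩ ⟨c, hcz⟩ ?_⟩
    rintro s hs
    change lr dec s.1 (rs (Set.Iio k) (gl β t.1 a.1)) at hs
    have hs1 : lr dec (rs (Set.Iio β) s.1) t.1 := by
      have := lr_rs β hs
      rwa [rs_Iio_rs hβk, rs_gl_lo t.2] at this
    obtain ⟨t2, h2, hRT⟩ := h ⟨rs (Set.Iio β) s.1, rs_lo s.2.1 β⟩ hs1
    have hhi : rs (Set.Ici β) s.1 ∈ Hi dec B β := rs_hi s.2.1 β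
    have hlo : rs (Set.Ici β) s.1 ∈ Lo dec B k := by
      refine ⟨rs_pk s.2.1 _, fun j hj => s.2.2 j fun h' => hj ?_⟩
      simp [rs, h']
    have hs' : gl β t2.1 (rs (Set.Ici β) s.1) ∈ Lo dec B k := gl_lo hβk t2.2 hhi hlo
    have hss : lr dec (gl β t2.1 (rs (Set.Ici β) s.1)) s.1 := by
      have := lr_dn t2.2 (rs_lo s.2.1 β) hhi h2
      rwa [gl_rs] at this
    have hsr : lr dec (gl β t2.1 (rs (Set.Ici β) s.1)) (rs (Set.Iio k) (gl β t2.1 a.1)) := by
      intro m l2 z hm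
      have hmk : m < k := by
        by_contra hmk
        have : rs (Set.Iio k) (gl β t2.1 a.1) m = none := by simp [rs, hmk]
        rw [this] at hm
        simp at hm
      have hm' : gl β t2.1 a.1 m = some (l2, z) := by
        have : rs (Set.Iio k) (gl β t2.1 a.1) m = gl β t2.1 a.1 m := by simp [rs, hmk]
        rw [← this]; exact hm
      by_cases hmb : m < β
      · have e1 : ∀ v : Raw O, gl β t2.1 v m = t2.1 m := fun v => by simp [gl, hmb]
        rw [e1] at hm'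
        rw [e1, rs_Iio_gl hmb.le]
        exact lr_refl t2.2.1 m l2 z hm'
      · have e1 : ∀ u v : Raw O, gl β u v m = v m := fun u v => by simp [gl, hmb]
        rw [e1] at hm'
        obtain ⟨y, hy, hR⟩ := hs m l2 z (by
          have : rs (Set.Iio k) (gl β t.1 a.1) m = a.1 m := by simp [rs, hmk, gl, hmb]
          rw [this]; exact hm')
        obtain ⟨hbm, hyz⟩ := blk_at s.2.1 hy
        have hzz := (blk_at a.2.1 hm').2
        refine ⟨y, ?_, ?_⟩
        · have : gl β t2.1 (rs (Set.Ici β) s.1) m = s.1 m := by simp [gl, rs, hmb]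
          rw [this]; exact hy
        · exact hbm.down ⟨_, rs_lo s.2.1 m⟩ ⟨_, rs_lo hs'.1 m⟩ ⟨y, hyz⟩ ⟨z, hzz⟩
            (lr_rs m hss) hR
    obtain ⟨c2, hc2, hR2⟩ := hRT k l c (by rw [eg]; exact hk)
    rw [eg, hc'] at hc2
    have hcc : c' = c2 := by
      have := Option.some.inj hc2
      exact (Prod.mk.inj this).2
    subst hcc
    exact ⟨⟨_, hs'⟩, hss, hb.down ⟨_, rs_lo (gl_pk t2.2 a.2) k⟩ ⟨_, hs'⟩ ⟨c', hcz'⟩ ⟨c, hcz⟩
      hsr hR2⟩

end Pool.Agent.UPrep
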