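import Pool.Agent.Lib.UPrep.Ord

/-!
# TlC: tails, mixing

PROOF. Let `RT t a b`. For each `k` with `a k = some (l, c')` choose the new value `some (l, d k)`: if `b k = some (l', c)` then `l' = l`
and `R (rs (Iio k) (gl β t a)) c' c`, and `mix` of the block at `k` at the condition `rs (Iio k) (gl β t a)` gives `d ∈ Z` with `X d c`,
`R .. d c'`, `R .. c' d`; if `b k = none` let `d k = c'`. `a'` is the function with these values (`none` where `a` is `none`). It has
the same support and the same labels as `a`, and `d k < B k` by `D.zb`, so `a' ∈ Hi β`. `XT a' b`: by construction (where `b k` is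
defined, `a k` is defined, by `RT t a b`; for `k < β` `b k = none`). `RT t a a'`: at `k ≥ β`, `R (rs (Iio k) (gl β t a)) (a k) (a' k)` by construction (`refl` of the block in the second case).
`RT t a' a`: prove by strong induction on `k` that for all `m ≤ k` the clause of `lr (gl β t a') (gl β t a)` at `m` holds: by the
induction hypothesis `rs (Iio k) (gl β t a') ≤ rs (Iio k) (gl β t a)` (`rs_Iio_rs`), so `down` of the block applied to
`R (rs (Iio k) (gl β t a)) (a' k) (a k)` gives the clause at `k`.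
-/

set_option autoImplicit false
universe u

namespace Pool.Agent.UPrep

open Cardinal Pool.Agent.PolF Pool.Agent.UlM

variable {O : Type u} [LinearOrder O] [WellFoundedLT O] {dec : O → O → Code O} {B : O → O}

private theorem tlc_gl_lt {β k : O} (h : k < β) (t a : Raw O) : gl β t a k = t k := by
  simp only [gl, if_pos h]

private theorem tlc_gl_ge {β k : O} (h : ¬ k < β) (t a : Raw O) : gl β t a k = a k := by
  simp only [gl, if_neg h]

private theorem tlc_lr {g h : Raw O}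
    (H : ∀ j, lr dec (rs (Set.Iio j) g) (rs (Set.Iio j) h) → ∀ l b, h j = some (l, b) →
      ∃ a, g j = some (l, a) ∧ (dec j l).R (rs (Set.Iio j) g) a b) : lr dec g h := by
  intro j
  induction j using WellFoundedLT.induction with
  | ind j ih =>
    refine H j ?_
    intro k l b hk
    by_cases hkj : k < j
    · have hk' : h k = some (l, b) := by
        simpa [rs, hkj] using hk
      obtain ⟨a, ha, hr⟩ := ih k hkj l b hk'
      refine ⟨a, ?_, ?_⟩
      · simpa [rs, hkj] using ha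
      · rw [rs_Iio_rs hkj.le]
        exact hr
    · exfalso
      simp [rs, hkj] at hk

theorem tl_mix (D : DecH dec B) (β : O) (t : ↥(Lo dec B β)) (a b : ↥(Hi dec B β))
    (h : RT dec B β t a b) : ∃ a', XT dec B β a' b ∧ RT dec B β t a' a ∧ RT dec B β t a a' := by
  have hga : gl β t.1 a.1 ∈ Pk dec B := gl_pk t.2 a.2
  have hab : ∀ k l c, b.1 k = some (l, c) → ¬ k < β ∧ ∃ c0, a.1 k = some (l, c0) ∧
      (dec k l).R (rs (Set.Iio k) (gl β t.1 a.1)) c0 c := by
    intro k l c hk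
    have hkβ : ¬ k < β := not_lt.2 (b.2.2 k (by rw [hk]; exact Option.some_ne_none _))
    refine ⟨hkβ, ?_⟩
    obtain ⟨c0, h1, h2⟩ := h k l c (by rw [tlc_gl_ge hkβ]; exact hk)
    rw [tlc_gl_ge hkβ] at h1
    exact ⟨c0, h1, h2⟩
  have key : ∀ k, ∃ d, ∀ l c', a.1 k = some (l, c') → d ∈ (dec k l).Z ∧
      (∀ l' c, b.1 k = some (l', c) → l' = l ∧ (dec k l).X d c) ∧
      (dec k l).R (rs (Set.Iio k) (gl β t.1 a.1)) d c' ∧
      (dec k l).R (rs (Set.Iio k) (gl β t.1 a.1)) c' d := by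
    intro k
    rcases hak : a.1 k with _ | ⟨l, c'⟩
    · exact ⟨k, fun l c' h' => absurd h' (by simp)⟩
    · obtain ⟨hbl, hc'⟩ := blk_at a.2.1 hak
      rcases hbk : b.1 k with _ | ⟨l', c⟩
      · refine ⟨c', ?_⟩
        intro l1 c1 h1
        obtain ⟨rfl, rfl⟩ : l = l1 ∧ c' = c1 := by
          simpa using h1
        have hrf := hbl.refl ⟨_, rs_lo hga k⟩ ⟨c', hc'⟩
        exact ⟨hc', fun l2 c2 h2 => absurd h2 (by simp), hrf, hrf⟩
      · obtain ⟨hkβ, c0, h1, h2⟩ := hab k l' c hbk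
        obtain ⟨rfl, rfl⟩ : l = l' ∧ c' = c0 := by
          rw [hak] at h1
          simpa using h1
        obtain ⟨_, hc⟩ := blk_at b.2.1 hbk
        obtain ⟨d, hd1, hd2, hd3⟩ := hbl.mix ⟨_, rs_lo hga k⟩ ⟨c', hc'⟩ ⟨c, hc⟩ h2
        refine ⟨d.1, ?_⟩
        intro l1 c1 h1'
        obtain ⟨rfl, rfl⟩ : l = l1 ∧ c' = c1 := by
          simpa using h1'
        refine ⟨d.2, ?_, hd2, hd3⟩
        intro l2 c2 h3
        obtain ⟨rfl, rfl⟩ : l = l2 ∧ c = c2 := by
          simpa using h3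
        exact ⟨rfl, hd1⟩
  choose d hd using key
  let a' : Raw O := fun k => (a.1 k).map (fun x => (x.1, d k))
  have ha'1 : ∀ k l c', a.1 k = some (l, c') → a' k = some (l, d k) := by
    intro k l c' hk
    simp only [a', hk, Option.map_some]
  have ha'2 : ∀ k l x, a' k = some (l, x) → x = d k ∧ ∃ c', a.1 k = some (l, c') := by
    intro k l x hk
    rcases hak : a.1 k with _ | ⟨l1, c1⟩
    · simp only [a', hak, Option.map_none] at hk
      exact absurd hk (by simp)
    · rw [ha'1 k l1 c1 hak] at hk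
      obtain ⟨rfl, rfl⟩ : l1 = l ∧ d k = x := by
        simpa using hk
      exact ⟨rfl, c1, rfl⟩
  have ha'3 : ∀ k, a' k ≠ none → a.1 k ≠ none := by
    intro k hk h0
    apply hk
    simp only [a', h0, Option.map_none]
  have hHi : a' ∈ Hi dec B β := by
    refine ⟨⟨⟨?_, ?_, ?_⟩, ?_⟩, fun k hk => a.2.2 k (ha'3 k hk)⟩
    · intro j l x hj
      obtain ⟨rfl, c', hc'⟩ := ha'2 j l x hj
      obtain ⟨h1, h2, -⟩ := a.2.1.1.ina j l c' hc'
      exact ⟨h1, h2, D.zb j l (hd j l c' hc').1⟩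
    · intro i hi
      obtain ⟨b0, h1, h2⟩ := a.2.1.1.eas i hi
      exact ⟨b0, h1, fun j hj => h2 j (ha'3 j hj)⟩
    · obtain ⟨b0, h1⟩ := a.2.1.1.bd
      exact ⟨b0, fun j hj => h1 j (ha'3 j hj)⟩
    · intro k m x hk
      obtain ⟨rfl, c', hc'⟩ := ha'2 k m x hk
      exact ⟨(a.2.1.2 k m c' hc').1, (hd k m c' hc').1⟩
  refine ⟨⟨a', hHi⟩, ?_, ?_, ?_⟩
  · intro k l c hk
    obtain ⟨_, c0, h1, -⟩ := hab k l c hk
    exact ⟨d k, ha'1 k l c0 h1, ((hd k l c0 h1).2.1 l c hk).2⟩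
  · refine tlc_lr ?_
    intro j hj l c hc
    have hga' : gl β t.1 a' ∈ Pk dec B := gl_pk t.2 hHi
    obtain ⟨hbl, hcZ⟩ := blk_at hga hc
    by_cases hjβ : j < β
    · rw [tlc_gl_lt hjβ] at hc
      refine ⟨c, by rw [tlc_gl_lt hjβ]; exact hc, ?_⟩
      exact hbl.refl ⟨_, rs_lo hga' j⟩ ⟨c, hcZ⟩
    · rw [tlc_gl_ge hjβ] at hc
      refine ⟨d j, by rw [tlc_gl_ge hjβ]; exact ha'1 j l c hc, ?_⟩
      exact hbl.down ⟨_, rs_lo hga j⟩ ⟨_, rs_lo hga' j⟩ ⟨d j, (hd j l c hc).1⟩ ⟨c, hcZ⟩ hj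
        (hd j l c hc).2.2.1
  · intro j l x hx
    by_cases hjβ : j < β
    · have hx' : gl β t.1 a.1 j = some (l, x) := by
        rw [tlc_gl_lt hjβ] at hx ⊢
        exact hx
      obtain ⟨hbl, hxZ⟩ := blk_at hga hx'
      exact ⟨x, hx', hbl.refl ⟨_, rs_lo hga j⟩ ⟨x, hxZ⟩⟩
    · have hx1 : a' j = some (l, x) := by
        rw [tlc_gl_ge hjβ] at hx
        exact hx
      obtain ⟨rfl, c', hc'⟩ := ha'2 j l x hx1
      exact ⟨c', by rw [tlc_gl_ge hjβ]; exact hc', (hd j l c' hc').2.2.2⟩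

end Pool.Agent.UPrep
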