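import Pool.Agent.Lib.UPrep.Ord
import Pool.Agent.Lib.UPrep.Inf

/-!
# TlD: tails, closure

PROOF. Let `C` be an `XT`-chain, nonempty, `#C ≤ ν`. For `k : O`, if some `a ∈ C` has `a k = some (l, c)`, the label `l` is the
same for all elements of `C` which are defined at `k` (two elements are comparable). The set `C_k ⊆ Z` of the elements `c` with
`a k = some (l, c)`, `a ∈ C`, is a nonempty `X`-chain with at most `ν` elements; `ν ≤ mu #(Iio k)`: if `k = β` by `hν`, if `β < k` by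
`ν < #(Iio k) ≤ mu #(Iio k)` (`le_mu`); `closed` of the block at `k` gives a lower bound `d k`. Let `b` be the function with values
`some (l, d k)`, `none` where all elements of `C` are `none`. `Adm b`: `ina`: `D.zb` for `d k < B k`; `eas` for `i`: if `i ≤ β` the support of
`b` does not meet `Iio i` (take any element below `i`, `ina_lim`); if `β < i`, each `a ∈ C` has a bound `b_a < i`; the set of
these bounds has at most `ν < #(Iio i)` elements, so it is bounded below `i` (`ina_bdd`); `bd`: the bounds of the elements of `C` form a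
set with at most `ν` elements, bounded by `hO.bdd` (`hνO`). `XT b a` for `a ∈ C`: by construction.
-/

set_option autoImplicit false
universe u

namespace Pool.Agent.UPrep

open Cardinal Pool.Agent.PolF Pool.Agent.UlM

variable {O : Type u} [LinearOrder O] [WellFoundedLT O] {dec : O → O → Code O} {B : O → O}

theorem tl_closed (hO : InO O) (D : DecH dec B) (β : O) {ν : Cardinal.{u}} (hνO : ν < #O)
    (hν : ∀ j, Ina j → (j = β → ν ≤ mu #(Set.Iio j)) ∧ (β < j → ν < #(Set.Iio j)))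
    (C : Set ↥(Hi dec B β)) (hC : C.Nonempty) (hC1 : #C ≤ ν)
    (hC2 : ∀ a ∈ C, ∀ b ∈ C, XT dec B β a b ∨ XT dec B β b a) :
    ∃ b, ∀ a ∈ C, XT dec B β b a := by
  classical
  -- the value of the lower bound at `k`
  have claim : ∀ k : O, (∃ a ∈ C, a.1 k ≠ none) → ∃ l d : O, d ∈ (dec k l).Z ∧ Ina k ∧ l < B k ∧
      Gd dec B k l ∧ β ≤ k ∧
      ∀ a ∈ C, ∀ l' c, a.1 k = some (l', c) → l' = l ∧ (dec k l).X d c := by
    rintro k ⟨a₀, ha₀, hne⟩
    obtain ⟨⟨l, c₀⟩, h₀⟩ := Option.ne_none_iff_exists'.1 hne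
    have hβ : β ≤ k := a₀.2.2 k hne
    obtain ⟨hI, hl, -⟩ := a₀.2.1.1.ina k l c₀ h₀
    obtain ⟨hG, hc₀⟩ := a₀.2.1.2 k l c₀ h₀
    have hB := (Gd_iff dec B k l).1 hG
    have huniq : ∀ a ∈ C, ∀ l' c, a.1 k = some (l', c) → l' = l := by
      intro a ha l' c h1
      rcases hC2 a ha a₀ ha₀ with h2 | h2
      · obtain ⟨c', h3, -⟩ := h2 k l c₀ h₀
        rw [h1] at h3
        exact (Prod.mk.inj (Option.some.inj h3)).1
      · obtain ⟨c', h3, -⟩ := h2 k l' c h1
        rw [h₀] at h3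
        exact (Prod.mk.inj (Option.some.inj h3)).1.symm
    have hν' : ν ≤ mu #(Set.Iio k) := by
      rcases hβ.eq_or_lt with h1 | h1
      · exact (hν k hI).1 h1.symm
      · exact ((hν k hI).2 h1).le.trans (le_mu _)
    obtain ⟨d, hd⟩ := hB.closed {z : ↥(dec k l).Z | ∃ a ∈ C, a.1 k = some (l, z.1)}
      ⟨⟨c₀, hc₀⟩, a₀, ha₀, h₀⟩ (by
        refine le_trans ?_ (hC1.trans hν')
        choose f hf1 hf2 using fun z :
          {z : ↥(dec k l).Z | ∃ a ∈ C, a.1 k = some (l, z.1)} => z.2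
        refine Cardinal.mk_le_of_injective (f := fun z => (⟨f z, hf1 z⟩ : ↥C)) ?_
        intro z z' hzz
        have h3 : f z = f z' := congrArg Subtype.val hzz
        have h4 := hf2 z
        rw [h3, hf2 z'] at h4
        exact Subtype.ext (Subtype.ext (Prod.mk.inj (Option.some.inj h4)).2.symm))
      (by
        rintro z ⟨a, ha, h1⟩ z' ⟨a', ha', h2⟩
        rcases hC2 a ha a' ha' with h3 | h3
        · left
          obtain ⟨c', h4, h5⟩ := h3 k l z'.1 h2
          rw [h1] at h4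
          rw [(Prod.mk.inj (Option.some.inj h4)).2]
          exact h5
        · right
          obtain ⟨c', h4, h5⟩ := h3 k l z.1 h1
          rw [h2] at h4
          rw [(Prod.mk.inj (Option.some.inj h4)).2]
          exact h5)
    refine ⟨l, d.1, d.2, hI, hl, hG, hβ, fun a ha l' c h1 => ?_⟩
    have h2 := huniq a ha l' c h1
    subst h2
    exact ⟨rfl, hd ⟨c, (a.2.1.2 k l' c h1).2⟩ ⟨a, ha, h1⟩⟩
  choose l d hd hI hl hG hβ hX using claim
  set b : Raw O := fun k => if h : ∃ a ∈ C, a.1 k ≠ none then some (l k h, d k h) else none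
    with hb
  have hb1 : ∀ k (h : ∃ a ∈ C, a.1 k ≠ none), b k = some (l k h, d k h) := by
    intro k h
    rw [hb]
    simp only [dif_pos h]
  have hb2 : ∀ k, b k ≠ none → ∃ a ∈ C, a.1 k ≠ none := by
    intro k hk
    by_contra h
    apply hk
    rw [hb]
    simp only [dif_neg h]
  have hb3 : ∀ k m c, b k = some (m, c) → ∃ h : ∃ a ∈ C, a.1 k ≠ none, m = l k h ∧ c = d k h := by
    intro k m c hk
    have h := hb2 k (by rw [hk]; simp)
    rw [hb1 k h] at hk
    have h1 := Prod.mk.inj (Option.some.inj hk)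
    exact ⟨h, h1.1.symm, h1.2.symm⟩
  have hmem : b ∈ Hi dec B β := by
    refine ⟨⟨⟨?_, ?_, ?_⟩, ?_⟩, ?_⟩
    · intro j m c hj
      obtain ⟨h, rfl, rfl⟩ := hb3 j m c hj
      exact ⟨hI j h, hl j h, D.zb j _ (hd j h)⟩
    · intro i hi
      rcases le_or_gt i β with hiβ | hiβ
      · obtain ⟨⟨e, he⟩, -⟩ := ina_lim hi
        refine ⟨e, he, fun j hj hji => ?_⟩
        obtain ⟨a, ha, hne⟩ := hb2 j hj
        exact absurd (a.2.2 j hne) (not_le.2 (hji.trans_le hiβ))
      · choose e he1 he2 using fun a : ↥C => a.1.2.1.1.eas i hi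
        have hcard : #(Set.range e) < #(Set.Iio i) :=
          (Cardinal.mk_range_le.trans hC1).trans_lt ((hν i hi).2 hiβ)
        obtain ⟨e', he', h3⟩ := ina_bdd hi (Set.range e) (by
          rintro _ ⟨a, rfl⟩
          exact he1 a) hcard
        refine ⟨e', he', fun j hj hji => ?_⟩
        obtain ⟨a, ha, hne⟩ := hb2 j hj
        exact (he2 ⟨a, ha⟩ j hne hji).trans (h3 _ ⟨⟨a, ha⟩, rfl⟩)
    · choose e he using fun a : ↥C => a.1.2.1.1.bd
      obtain ⟨e', he'⟩ := hO.bdd (Set.range e) ((Cardinal.mk_range_le.trans hC1).trans_lt hνO)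
      refine ⟨e', fun j hj => ?_⟩
      obtain ⟨a, ha, hne⟩ := hb2 j hj
      exact (he ⟨a, ha⟩ j hne).trans (he' _ ⟨⟨a, ha⟩, rfl⟩)
    · intro k m c hk
      obtain ⟨h, rfl, rfl⟩ := hb3 k m c hk
      exact ⟨hG k h, hd k h⟩
    · intro k hk
      exact hβ k (hb2 k hk)
  refine ⟨⟨b, hmem⟩, fun a ha k m c hk => ?_⟩
  have h : ∃ a ∈ C, a.1 k ≠ none := ⟨a, ha, by rw [hk]; simp⟩
  obtain ⟨h1, h2⟩ := hX k h a ha m c hk
  subst h1
  exact ⟨d k h, hb1 k h, h2⟩

end Pool.Agent.UPrep
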