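import Pool.Agent.Lib.UPrep.TlA
import Pool.Agent.Lib.UPrep.TlB
import Pool.Agent.Lib.UPrep.TlC
import Pool.Agent.Lib.UPrep.TlD

/-!
# Tail: the conditions with support from `β` on are a tail block over the conditions with support below `β`
-/

set_option autoImplicit false
universe u

namespace Pool.Agent.UPrep

open Cardinal Pool.Agent.PolF Pool.Agent.UlM

variable {O : Type u} [LinearOrder O] [WellFoundedLT O] {dec : O → O → Code O} {B : O → O}

theorem tail_tl (hO : InO O) (D : DecH dec B) (β : O) {ν : Cardinal.{u}} (hνO : ν < #O)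
    (hν : ∀ j, Ina j → (j = β → ν ≤ mu #(Set.Iio j)) ∧ (β < j → ν < #(Set.Iio j))) :
    IsTl (lL dec B β) (RT dec B β) (XT dec B β) ν where
  down := tl_down β
  loc := tl_loc β
  refl := tl_refl β
  trans := tl_trans β
  xrefl := tl_xrefl β
  xtrans := tl_xtrans β
  xr := tl_xr β
  closed := tl_closed hO D β hνO hν
  mix := tl_mix D β

end Pool.Agent.UPrep
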