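import Pool.Agent.Lib.UPrep.Ord

/-!
# TlA: tails, the easy properties

PROOF. `tl_down`: `lr_dn` and `lr_trans` (`gl β t' a ≤ gl β t a ≤ gl β t b`), then `lr_gl`. `tl_xr`: let `b k = some (l, c)`, `k ≥ β` (for `k < β`
`lr_refl` of `t`); there is `c'` with `a k = some (l, c')`, `X c' c`; `xr` of the block at `k` (`blk_at` for `gl β t a`).
`tl_xtrans`: `X` of the block is transitive (`blk_at` for the middle element gives the block). `tl_xrefl`: `xrefl`.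
-/

set_option autoImplicit false
universe u

namespace Pool.Agent.UPrep

open Cardinal Pool.Agent.PolF Pool.Agent.UlM

variable {O : Type u} [LinearOrder O] [WellFoundedLT O] {dec : O → O → Code O} {B : O → O}

theorem tl_down (β : O) (t t' : ↥(Lo dec B β)) (a b : ↥(Hi dec B β)) (h : lL dec B β t' t)
    (h1 : RT dec B β t a b) : RT dec B β t' a b := by
  have e1 : lr dec (gl β t'.1 a.1) (gl β t.1 a.1) := lr_dn t'.2 t.2 a.2 h
  have e2 : lr dec (gl β t'.1 a.1) (gl β t.1 b.1) :=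
    lr_trans (gl_pk t'.2 a.2) (gl_pk t.2 a.2) (gl_pk t.2 b.2) e1 h1
  exact ((lr_gl t'.2 t.2 a.2 b.2).1 e2).2

theorem tl_refl (β : O) (t : ↥(Lo dec B β)) (a : ↥(Hi dec B β)) : RT dec B β t a a :=
  lr_refl (gl_pk t.2 a.2)

theorem tl_trans (β : O) (t : ↥(Lo dec B β)) (a b c : ↥(Hi dec B β)) (h1 : RT dec B β t a b)
    (h2 : RT dec B β t b c) : RT dec B β t a c :=
  lr_trans (gl_pk t.2 a.2) (gl_pk t.2 b.2) (gl_pk t.2 c.2) h1 h2

theorem tl_xrefl (β : O) (a : ↥(Hi dec B β)) : XT dec B β a a := by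
  intro k l c h
  obtain ⟨hb, hc⟩ := blk_at a.2.1 h
  exact ⟨c, h, hb.xrefl ⟨c, hc⟩⟩

theorem tl_xtrans (β : O) (a b c : ↥(Hi dec B β)) (h1 : XT dec B β a b) (h2 : XT dec B β b c) :
    XT dec B β a c := by
  intro k l z h
  obtain ⟨y, hy, hyz⟩ := h2 k l z h
  obtain ⟨x, hx, hxy⟩ := h1 k l y hy
  obtain ⟨hb, hz⟩ := blk_at c.2.1 h
  have hy' := (blk_at b.2.1 hy).2
  have hx' := (blk_at a.2.1 hx).2
  exact ⟨x, hx, hb.xtrans ⟨x, hx'⟩ ⟨y, hy'⟩ ⟨z, hz⟩ hxy hyz⟩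

theorem tl_xr (β : O) (t : ↥(Lo dec B β)) (a b : ↥(Hi dec B β)) (h : XT dec B β a b) :
    RT dec B β t a b := by
  intro k l c hk
  by_cases hkb : k < β
  · have e1 : gl β t.1 b.1 k = t.1 k := by simp [gl, hkb]
    have e2 : gl β t.1 a.1 k = t.1 k := by simp [gl, hkb]
    rw [e1] at hk
    rw [e2, rs_Iio_gl hkb.le]
    obtain ⟨a', ha', hR⟩ := lr_refl t.2.1 k l c hk
    exact ⟨a', ha', hR⟩
  · have e1 : gl β t.1 b.1 k = b.1 k := by simp [gl, hkb]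
    have e2 : gl β t.1 a.1 k = a.1 k := by simp [gl, hkb]
    rw [e1] at hk
    obtain ⟨c', hc', hX⟩ := h k l c hk
    have hg : gl β t.1 a.1 ∈ Pk dec B := gl_pk t.2 a.2
    have hgk : gl β t.1 a.1 k = some (l, c') := by rw [e2]; exact hc'
    obtain ⟨hb, hc''⟩ := blk_at hg hgk
    have hcz := (blk_at b.2.1 hk).2
    exact ⟨c', hgk, hb.xr ⟨_, rs_lo hg k⟩ ⟨c', hc''⟩ ⟨c, hcz⟩ hX⟩

end Pool.Agent.UPrep
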